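import Pool.Agent.Lib.MP_562b47_mp.CD.Low
import Pool.Agent.Lib.MP_562b47_mp.CD.Thin
import Pool.Agent.Lib.MP_562b47_mp.AS.Stage
import Pool.Agent.Lib.MP_562b47_mp.GX.Lim

/-!
MP_562b47, every dimension, the chain: the bound for the cubic boxes.
-/

open Finset MeasureTheory

namespace Pool.Agent.Lib.MP_562b47_mp.CD

open Pool.Agent.Lib.MP_562b47_mp.RD Pool.Agent.Lib.MP_562b47_mp.WO Pool.Agent.Lib.MP_562b47_mp

/-! ### The sites near the boundary of the box -/

theorem card_lt (n R : ℕ) : (univ.filter fun i : Fin n => (i : ℕ) < R).card ≤ R := by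
  calc (univ.filter fun i : Fin n => (i : ℕ) < R).card
      ≤ (range R).card := by
        refine card_le_card_of_injOn (fun i => (i : ℕ)) ?_ ?_
        · intro i hi
          simp only [coe_filter, mem_univ, true_and, Set.mem_setOf_eq] at hi
          simpa using hi
        · intro i _ j _ h
          exact Fin.ext h
    _ = R := card_range R

theorem card_ge (n R : ℕ) : (univ.filter fun i : Fin n => n ≤ (i : ℕ) + R).card ≤ R := by
  calc (univ.filter fun i : Fin n => n ≤ (i : ℕ) + R).card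
      ≤ (range R).card := by
        refine card_le_card_of_injOn (fun i => n - 1 - (i : ℕ)) ?_ ?_
        · intro i hi
          simp only [coe_filter, mem_univ, true_and, Set.mem_setOf_eq] at hi
          have := i.2
          simp only [coe_range, Set.mem_Iio]
          omega
        · intro i _ j _ h
          have h1 := i.2
          have h2 := j.2
          simp only at h
          apply Fin.ext
          omega
    _ = R := card_range R

variable {d : ℕ}

theorem card_coord {n : ℕ} (T : Finset (Fin n)) (i : Fin d) :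
    (univ.filter fun s : Fin d → Fin n => s i ∈ T).card ≤ T.card * n ^ (d - 1) := by
  classical
  have h1 : (univ.filter fun s : Fin d → Fin n => s i ∈ T) ⊆
      Fintype.piFinset fun j => if j = i then T else univ := by
    intro s hs
    simp only [mem_filter, mem_univ, true_and] at hs
    rw [Fintype.mem_piFinset]
    intro j
    by_cases h : j = i
    · subst h; rw [if_pos rfl]; exact hs
    · rw [if_neg h]; exact mem_univ _
  refine (card_le_card h1).trans ?_
  rw [Fintype.card_piFinset, ← Finset.mul_prod_erase univ _ (mem_univ i), if_pos rfl]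
  refine Nat.mul_le_mul_left _ (le_of_eq ?_)
  have h2 : ∀ j ∈ (univ : Finset (Fin d)).erase i,
      (if j = i then T else (univ : Finset (Fin n))).card = n := by
    intro j hj
    rw [if_neg (ne_of_mem_erase hj), card_univ, Fintype.card_fin]
  rw [prod_congr rfl h2, prod_const, card_erase_of_mem (mem_univ i), card_univ, Fintype.card_fin]

theorem card_bd (n R : ℕ) :
    (univ.filter fun s : Fin d → Fin n => ∃ i, (s i : ℕ) < R ∨ n ≤ (s i : ℕ) + R).card ≤
      2 * d * R * n ^ (d - 1) := by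
  classical
  set T : Finset (Fin n) := univ.filter fun i : Fin n => (i : ℕ) < R ∨ n ≤ (i : ℕ) + R with hT
  have h1 : T.card ≤ 2 * R := by
    rw [hT, filter_or]
    refine (card_union_le _ _).trans ?_
    have := card_lt n R
    have := card_ge n R
    omega
  have h2 : (univ.filter fun s : Fin d → Fin n => ∃ i, (s i : ℕ) < R ∨ n ≤ (s i : ℕ) + R) ⊆
      univ.biUnion fun i : Fin d => univ.filter fun s : Fin d → Fin n => s i ∈ T := by
    intro s hs
    simp only [mem_filter, mem_univ, true_and] at hs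
    obtain ⟨i, hi⟩ := hs
    rw [mem_biUnion]
    refine ⟨i, mem_univ _, ?_⟩
    rw [mem_filter, hT, mem_filter]
    exact ⟨mem_univ _, mem_univ _, hi⟩
  refine (card_le_card h2).trans (card_biUnion_le.trans ?_)
  calc ∑ i : Fin d, (univ.filter fun s : Fin d → Fin n => s i ∈ T).card
      ≤ ∑ _i : Fin d, (2 * R) * n ^ (d - 1) := by
        refine sum_le_sum fun i _ => (card_coord T i).trans ?_
        exact Nat.mul_le_mul_right _ h1
    _ = 2 * d * R * n ^ (d - 1) := by
        rw [sum_const, card_univ, Fintype.card_fin, smul_eq_mul]; ring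

variable {c : ℝ}

/-- sites in the interior of the box have a block -/
theorem fits_of {n : ℕ} (P : Par d c (Fin d → Fin n)) (hpos : P.pos = GX.bp d n) {j R : ℕ}
    (hR : P.G.b * ((P.N0 + j : ℕ) : ℤ) + 2 ≤ R) {s : Fin d → Fin n}
    (hs : ∀ i, R ≤ (s i : ℕ) ∧ (s i : ℕ) + R < n) : P.fits j s := by
  intro x hx
  rw [hpos] at hx ⊢
  rw [mem_bq] at hx
  have g : ∀ i, (x i).toNat < n ∧ 0 ≤ x i := by
    intro i
    have h1 := hx i
    have h2 := hs i
    unfold rel GX.bp at h1
    omega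
  refine ⟨fun i => ⟨(x i).toNat, (g i).1⟩, ?_⟩
  unfold GX.bp
  funext i
  have := (g i).2
  simp only
  omega

/-- sites without a block are near the boundary -/
theorem bad_card {n : ℕ} (P : Par d c (Fin d → Fin n)) (hpos : P.pos = GX.bp d n) {m R : ℕ}
    (hR : P.G.b * ((P.N0 + (m + 1) : ℕ) : ℤ) + 2 ≤ R) :
    ((univ \ P.gds m).card : ℝ) ≤ 2 * d * R * (n : ℝ) ^ (d - 1) := by
  classical
  have h1 : univ \ P.gds m ⊆ univ.filter fun s : Fin d → Fin n =>
      ∃ i, (s i : ℕ) < R ∨ n ≤ (s i : ℕ) + R := by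
    intro s hs
    rw [mem_sdiff] at hs
    have h2 := hs.2
    rw [P.mem_gds] at h2
    simp only [mem_filter, mem_univ, true_and]
    by_contra hcon
    push Not at hcon
    exact h2 (fits_of P hpos hR hcon)
  have h3 := (card_le_card h1).trans (card_bd n R)
  exact_mod_cast h3

/-- the bound for the boxes -/
theorem box (hc : 0 < c) (hd : 2 ≤ d) {Es : ℝ} (h1 : -c < Es) (h2 : Es < 4 * d + c) :
    ∃ δ C a₀ : ℝ, 0 < δ ∧ 0 < a₀ ∧ 0 ≤ C ∧ ∀ E : ℝ, |E - Es| < δ →
      ∀ a : ℝ, 0 < a → a < a₀ → ∃ n₀ : ℕ, ∀ n ≥ n₀,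
        ∫ V, AL.DU (GX.Ab d E n) (GX.xb d n) (fun x => ((V x : ℝ) : ℂ) - a * Complex.I)
          ∂(Measure.pi fun _ : (Fin d → Fin n) => unif c) ≤ C * (n : ℝ) ^ d := by
  obtain ⟨G, δ, hδ, hadm⟩ := exists_Gd hd hc h1 h2
  obtain ⟨Cw, hCw1, hCwG, N1, Cy, hN1, hCy, hlow⟩ := low_inst hc G
  obtain ⟨N2, Cx, hN2, hCx, hthin⟩ := thin_inst G Cw hCw1
  obtain ⟨N3, hN3, hgd⟩ := G.exists_N1
  obtain ⟨N4, hN4, het⟩ := G.exists_et
  set N0 : ℕ := max (max N1 N2) (max N3 N4) with hN0
  have hN01 : N1 ≤ N0 := (le_max_left _ _).trans (le_max_left _ _)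
  have hN02 : N2 ≤ N0 := (le_max_right _ _).trans (le_max_left _ _)
  have hN03 : N3 ≤ N0 := (le_max_left _ _).trans (le_max_right _ _)
  have hN04 : N4 ≤ N0 := (le_max_right _ _).trans (le_max_right _ _)
  have hd0 : (0 : ℝ) < d := by
    have : 0 < d := by omega
    exact_mod_cast this
  have hbcp : 0 < bc d := by unfold bc dg; positivity
  obtain ⟨K, hK, hstart⟩ := exists_start.{0} hc G Cw hCw1 N0 (ev_pos (pe d) (N0 + 1))
  refine ⟨δ, (K + 1) * Real.exp (2 * Cx + (2 * Cy + 1)), ev (pe d) N0, hδ, ev_pos _ _,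
    by positivity, ?_⟩
  intro E hE a ha ha0
  obtain ⟨M, hM1, hM2⟩ := exists_M (s := pe d) (by unfold pe; omega) N0 ha ha0.le
  -- the size of the boundary
  obtain ⟨R, hR⟩ : ∃ R : ℕ, G.b * ((N0 + M : ℕ) : ℤ) + 2 ≤ R :=
    ⟨(G.b * ((N0 + M : ℕ) : ℤ) + 2).toNat, Int.self_le_toNat _⟩
  set β0 : ℝ := 1 / (bc d / a ^ 3 * (M + 1)) with hβ0
  have hβ0p : 0 < β0 := by positivity
  obtain ⟨n1, hn1⟩ := exists_nat_ge (2 * d * R / β0)
  refine ⟨max n1 (4 * R + 1), fun n hn => ?_⟩
  have hn2 : 4 * R + 1 ≤ n := (le_max_right _ _).trans hn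
  have hnr : (2 * d * R / β0 : ℝ) ≤ n := hn1.trans (by exact_mod_cast (le_max_left _ _).trans hn)
  have hn0 : 0 < n := by omega
  have hnp : (0 : ℝ) < n := by exact_mod_cast hn0
  -- the instance
  let P : Par d c (Fin d → Fin n) :=
    { G := G, E := E, adm := hadm E hE, pos := GX.bp d n, inj := GX.bp_inj d n, N0 := N0, M := M,
      one_le := hN1.trans hN01, Cw := Cw, Cw_ge := hCwG, et := etf (pe d) N0 M a,
      et_pos := fun _ => etf_pos ha, et_le := fun _ => etf_le_one }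
  have hstd : Std P a := ⟨rfl, ha, hM1, hM2⟩
  have hcardN : Fintype.card (Fin d → Fin n) = n ^ d := by
    rw [Fintype.card_fun, Fintype.card_fin, Fintype.card_fin]
  have hcard : (Fintype.card (Fin d → Fin n) : ℝ) = (n : ℝ) ^ d := by
    rw [hcardN]; push_cast; ring
  have hι : 0 < Fintype.card (Fin d → Fin n) := by
    rw [hcardN]; positivity
  have hRj : ∀ j ≤ M, P.G.b * ((P.N0 + j : ℕ) : ℤ) + 2 ≤ R := by
    intro j hj
    have h3 : ((P.N0 + j : ℕ) : ℤ) ≤ ((N0 + M : ℕ) : ℤ) := by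
      have : P.N0 = N0 := rfl
      rw [this]
      omega
    have h4 : (0 : ℤ) ≤ P.G.b := by have := P.G.hb; omega
    have h5 := mul_le_mul_of_nonneg_left h3 h4
    have h6 : P.G.b = G.b := rfl
    rw [h6] at h5 ⊢
    linarith
  have hbad : ∀ m < M, ((univ \ P.gds m).card : ℝ) ≤ β0 * Fintype.card (Fin d → Fin n) := by
    intro m hm
    refine (bad_card P rfl (hRj (m + 1) (by omega))).trans ?_
    rw [hcard]
    rw [div_le_iff₀ hβ0p] at hnr
    have h3 : (n : ℝ) ^ d = n * (n : ℝ) ^ (d - 1) := by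
      rw [← pow_succ']
      congr 1
      omega
    rw [h3, ← mul_assoc]
    refine mul_le_mul_of_nonneg_right ?_ (by positivity)
    linarith
  -- there is a block
  have hne : Nonempty P.Blk := by
    have hm : n / 2 < n := Nat.div_lt_self hn0 (by norm_num)
    obtain ⟨q, -⟩ := P.exists_blk (j := 0) (Nat.zero_le _) (fun _ => (⟨n / 2, hm⟩ : Fin n))
      (fits_of P rfl (hRj 0 (Nat.zero_le _)) fun i => by
        simp only
        omega)
    exact ⟨q⟩
  have hgood : Good P.sys P.A := P.good hgd hN03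
  -- the start
  have h0 : P.sys.Dw P.A P.xi 0 1 (P.et 0) + Fintype.card (Fin d → Fin n) ≤
      (K + 1) * Fintype.card (Fin d → Fin n) := by
    have h3 := hstart (Fin d → Fin n) P rfl rfl rfl hgood (fun j => by
        refine le_trans ?_ (het (N0 + j) (hN04.trans (Nat.le_add_right _ _)))
        have h4 : P.et j ≤ Real.exp (-((N0 + j : ℕ) : ℝ) ^ pe d) := etf_le_ev
        have h5 := G.nQ_nonneg (N0 + j)
        have h6 := G.Rb_nonneg (N0 + j)
        gcongr) 0 1 (P.et 0) (hstd.et_ge (j := 0) (Nat.zero_le _)) (P.et_le 0) zero_le_one le_rfl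
    linarith
  -- the chain
  have hch := chain
    (F := fun m => P.sys.Dw P.A P.xi m 1 (P.et m) + Fintype.card (Fin d → Fin n))
    (H := fun m => P.sys.Dw P.A P.xi m 0 (P.et m) + Fintype.card (Fin d → Fin n))
    (x := fun m => Cx / ((N0 : ℝ) + m) ^ 2)
    (y := fun m => Cy / ((N0 : ℝ) + m) ^ 2 + bc d / a ^ 3 * β0) M h0
    (fun m hm => hthin (Fin d → Fin n) P a rfl rfl hN02 hstd hι m hm)
    (fun m hm => hlow (Fin d → Fin n) P a rfl rfl hN01 hstd hι β0 hβ0p.le m hm (hbad m hm))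
  have hN0pos : 1 ≤ N0 := hN1.trans hN01
  have hsx : ∑ m ∈ range (M + 1), Cx / ((N0 : ℝ) + m) ^ 2 ≤ 2 * Cx := by
    have h3 := sum_inv_sq hN0pos (M + 1)
    have h4 : ∑ m ∈ range (M + 1), Cx / ((N0 : ℝ) + m) ^ 2 =
        Cx * ∑ m ∈ range (M + 1), 1 / ((N0 : ℝ) + m) ^ 2 := by
      rw [mul_sum]
      exact sum_congr rfl fun _ _ => by ring
    rw [h4]
    nlinarith
  have hsy : ∑ m ∈ range M, (Cy / ((N0 : ℝ) + m) ^ 2 + bc d / a ^ 3 * β0) ≤ 2 * Cy + 1 := by
    have h3 := sum_inv_sq hN0pos M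
    have h4 : ∑ m ∈ range M, Cy / ((N0 : ℝ) + m) ^ 2 =
        Cy * ∑ m ∈ range M, 1 / ((N0 : ℝ) + m) ^ 2 := by
      rw [mul_sum]
      exact sum_congr rfl fun _ _ => by ring
    rw [sum_add_distrib, h4, sum_const, card_range, nsmul_eq_mul]
    have h5 : (M : ℝ) * (bc d / a ^ 3 * β0) ≤ 1 := by
      rw [hβ0]
      have h6 : (0 : ℝ) < bc d / a ^ 3 := by positivity
      have h7 : (0 : ℝ) ≤ M := Nat.cast_nonneg _
      rw [mul_one_div, ← mul_div_assoc, div_le_one (by positivity)]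
      nlinarith
    nlinarith
  have hM0 : P.sys.Dw P.A P.xi M 0 (P.et M) = ∫ V, AL.DU P.A P.xi
      (fun x => (V x : ℂ) - (a : ℂ) * Complex.I) ∂(P.sys.mu) := by
    rw [P.sys.Dw_top P.A P.xi (fun b => P.cls_le b)]
    have h3 : P.et M = a := hstd.et_last
    rw [h3]
  have hA : P.A = GX.Ab d E n := by
    ext x y
    have h3 : P.A x y = (if x = y then 2 * d - E else 0) -
        if GD.adj (GX.bp d n x) (GX.bp d n y) then 1 else 0 := rfl
    rw [h3]
    unfold GX.Ab
    rw [Matrix.of_apply]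
    by_cases hxy : x = y
    · subst hxy
      rw [if_pos rfl, if_pos rfl, if_neg adj_irrefl, sub_zero]
    · rw [if_neg hxy, if_neg hxy]
      split_ifs <;> norm_num
  have hxi : P.xi = GX.xb d n := by
    funext j x
    have h3 : P.xi j x = ((GX.bp d n x j : ℤ) : ℝ) := rfl
    rw [h3]
    unfold GX.bp GX.xb
    simp
  have hmu : P.sys.mu = Measure.pi fun _ : (Fin d → Fin n) => unif c := rfl
  rw [hM0, hA, hxi, hmu] at hch
  have hexp : Real.exp (∑ m ∈ range (M + 1), Cx / ((N0 : ℝ) + m) ^ 2 +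
      ∑ m ∈ range M, (Cy / ((N0 : ℝ) + m) ^ 2 + bc d / a ^ 3 * β0)) ≤
      Real.exp (2 * Cx + (2 * Cy + 1)) := Real.exp_le_exp.mpr (add_le_add hsx hsy)
  have hfin : (K + 1) * (Fintype.card (Fin d → Fin n) : ℝ) *
      Real.exp (∑ m ∈ range (M + 1), Cx / ((N0 : ℝ) + m) ^ 2 +
      ∑ m ∈ range M, (Cy / ((N0 : ℝ) + m) ^ 2 + bc d / a ^ 3 * β0)) ≤
      (K + 1) * (Fintype.card (Fin d → Fin n) : ℝ) * Real.exp (2 * Cx + (2 * Cy + 1)) :=
    mul_le_mul_of_nonneg_left hexp (by positivity)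
  have h9 : (0 : ℝ) ≤ Fintype.card (Fin d → Fin n) := Nat.cast_nonneg _
  calc ∫ V, AL.DU (GX.Ab d E n) (GX.xb d n) (fun x => ((V x : ℝ) : ℂ) - a * Complex.I)
        ∂(Measure.pi fun _ : (Fin d → Fin n) => unif c)
      ≤ (K + 1) * (Fintype.card (Fin d → Fin n) : ℝ) * Real.exp (2 * Cx + (2 * Cy + 1)) := by
        linarith
    _ = _ := by rw [hcard]; ring

end Pool.Agent.Lib.MP_562b47_mp.CD
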