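import Pool.Agent.Lib.MP_562b47_mp.CD.Box
import Pool.Agent.Lib.MP_562b47_mp.ST.Crude

/-!
MP_562b47, every dimension: the diffusive bound for the Green function on compact sets of energies
inside the spectrum.
-/

open Finset MeasureTheory

namespace Pool.Agent.Lib.MP_562b47_mp.CD

open Pool.Agent.Lib.MP_562b47_mp.AL Pool.Agent.Lib.MP_562b47_mp
open Pool.Agent.Lib.MP_562b47_mp.GD (adj sh)

variable {d : ℕ} {c E a : ℝ}

theorem Ab_symm (d : ℕ) (E : ℝ) (n : ℕ) : (GX.Ab d E n).IsSymm := by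
  ext x y
  simp only [Matrix.transpose_apply, GX.Ab, Matrix.of_apply]
  by_cases h : x = y
  · subst h; simp
  · rw [if_neg h, if_neg (Ne.symm h)]
    simp only [GX.adj_comm (GX.bp d n y) (GX.bp d n x)]

/-- the neighbours in the direction `j` -/
theorem sum_dir (n : ℕ) (j : Fin d) (p : Fin d → Fin n) :
    ∑ q, |GX.Ab d E n p q| * |GX.xb d n j p - GX.xb d n j q| ≤ 2 := by
  classical
  -- only the sites `p ± e_j` contribute
  set T : Finset (Fin d → Fin n) := univ.filter fun q =>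
    GX.bp d n q = sh (GX.bp d n p) j 1 ∨ GX.bp d n q = sh (GX.bp d n p) j (-1) with hT
  have hcard : T.card ≤ 2 := by
    have h1 : T ⊆ (univ.filter fun q => GX.bp d n q = sh (GX.bp d n p) j 1) ∪
        (univ.filter fun q => GX.bp d n q = sh (GX.bp d n p) j (-1)) := by
      intro q hq
      rw [hT] at hq
      simpa using hq
    have h2 : ∀ z : Fin d → ℤ, (univ.filter fun q => GX.bp d n q = z).card ≤ 1 := by
      intro z
      rw [Finset.card_le_one]
      intro q hq q' hq'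
      simp only [mem_filter, mem_univ, true_and] at hq hq'
      exact GX.bp_inj d n (hq.trans hq'.symm)
    have h3 := (Finset.card_le_card h1).trans (Finset.card_union_le _ _)
    have h4 := h2 (sh (GX.bp d n p) j 1)
    have h5 := h2 (sh (GX.bp d n p) j (-1))
    omega
  have hterm : ∀ q, |GX.Ab d E n p q| * |GX.xb d n j p - GX.xb d n j q| ≤
      if q ∈ T then 1 else 0 := by
    intro q
    by_cases hpq : p = q
    · subst hpq
      simp only [sub_self, abs_zero, mul_zero]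
      split_ifs <;> norm_num
    by_cases hadj : adj (GX.bp d n p) (GX.bp d n q)
    · have hA : |GX.Ab d E n p q| = 1 := by
        unfold GX.Ab
        rw [Matrix.of_apply, if_neg hpq, if_pos hadj]; norm_num
      rw [hA, one_mul]
      obtain ⟨i, hi⟩ := hadj
      by_cases hij : i = j
      · subst hij
        have hq : q ∈ T := by rw [hT]; simpa using hi
        rw [if_pos hq]
        have hx : ∀ r : Fin d → Fin n, GX.xb d n i r = ((GX.bp d n r i : ℤ) : ℝ) := by
          intro r; simp [GX.xb, GX.bp]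
        rw [hx, hx]
        rcases hi with h | h
        all_goals
          rw [h, sh, Function.update_self]
          push_cast
          norm_num
      · have hx : GX.xb d n j p = GX.xb d n j q := by
          have h1 : GX.bp d n q j = GX.bp d n p j := by
            rcases hi with h | h
            all_goals
              rw [h, sh, Function.update_of_ne (Ne.symm hij)]
          have h2 : ∀ r : Fin d → Fin n, GX.xb d n j r = ((GX.bp d n r j : ℤ) : ℝ) := by
            intro r; simp [GX.xb, GX.bp]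
          rw [h2, h2, h1]
        rw [hx, sub_self, abs_zero]
        split_ifs <;> norm_num
    · have hA : GX.Ab d E n p q = 0 := by
        unfold GX.Ab
        rw [Matrix.of_apply, if_neg hpq, if_neg hadj]
      rw [hA, abs_zero, zero_mul]
      split_ifs <;> norm_num
  calc ∑ q, |GX.Ab d E n p q| * |GX.xb d n j p - GX.xb d n j q|
      ≤ ∑ q, (if q ∈ T then (1:ℝ) else 0) := Finset.sum_le_sum fun q _ => hterm q
    _ = (T.card : ℝ) := by rw [← Finset.sum_filter]; simp
    _ ≤ 2 := by exact_mod_cast hcard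

/-- crude bound in the box -/
theorem crude_box (ha : 0 < a) (n : ℕ) (V : (Fin d → Fin n) → ℝ) :
    DU (GX.Ab d E n) (GX.xb d n) (fun x => ((V x : ℝ) : ℂ) - a * Complex.I) ≤
      4 * d / a ^ 2 * n ^ d := by
  classical
  set u : (Fin d → Fin n) → ℂ := fun x => ((V x : ℝ) : ℂ) - a * Complex.I with hu
  have hloss : Loss u := fun x => by simp [hu, ha]
  have hgam : ∀ x, gam u x = a := fun x => by simp [gam, hu]
  have h1 : ∀ (j : Fin d) (s : Fin d → Fin n), gam u s * ∑ x, gam u x *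
      (GX.xb d n j x - GX.xb d n j s) ^ 2 * ‖GM (GX.Ab d E n) u x s‖ ^ 2 ≤ 2 ^ 2 / a ^ 2 :=
    fun j s => ST.crude_site (Ab_symm d E n) hloss (GX.xb d n j) (fun _ => True) ha
      (fun x _ => (hgam x).ge) (fun _ _ _ _ => ⟨trivial, trivial⟩) (fun p => sum_dir n j p) s
  have h2 : DU (GX.Ab d E n) (GX.xb d n) u = ∑ s, ∑ j, gam u s * ∑ x, gam u x *
      (GX.xb d n j x - GX.xb d n j s) ^ 2 * ‖GM (GX.Ab d E n) u x s‖ ^ 2 := by
    unfold DU AL.DD ff
    rw [Finset.sum_comm]
    refine Finset.sum_congr rfl fun s _ => ?_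
    simp_rw [Finset.mul_sum, Finset.sum_mul]
    rw [Finset.sum_comm]
    refine Finset.sum_congr rfl fun j _ => Finset.sum_congr rfl fun x _ => ?_
    ring
  rw [h2]
  calc ∑ s, ∑ j, gam u s * ∑ x, gam u x *
        (GX.xb d n j x - GX.xb d n j s) ^ 2 * ‖GM (GX.Ab d E n) u x s‖ ^ 2
      ≤ ∑ _s : Fin d → Fin n, ∑ _j : Fin d, (2 ^ 2 / a ^ 2 : ℝ) :=
        Finset.sum_le_sum fun s _ => Finset.sum_le_sum fun j _ => h1 j s
    _ = _ := by
        rw [Finset.sum_const, Finset.sum_const, Finset.card_univ, Finset.card_univ,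
          Fintype.card_fun, Fintype.card_fin, Fintype.card_fin, nsmul_eq_mul, nsmul_eq_mul]
        push_cast
        ring

/-- crude bound on the lattice -/
theorem de_crude (hc : 0 < c) (ha : 0 < a) :
    QL.DE d c ⟨E, a⟩ ≤ ENNReal.ofReal (4 * d / a ^ 2 / a ^ 2) := by
  haveI := unif_prob hc
  refine GX.lim_box hc ha (by positivity) (n₀ := 0) fun n _ => ?_
  have h1 : ∫ V, DU (GX.Ab d E n) (GX.xb d n) (fun x => ((V x : ℝ) : ℂ) - a * Complex.I)
      ∂(Measure.pi fun _ : (Fin d → Fin n) => unif c) ≤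
      ∫ _V, (4 * d / a ^ 2 * n ^ d : ℝ) ∂(Measure.pi fun _ : (Fin d → Fin n) => unif c) := by
    refine integral_mono_of_nonneg (Filter.Eventually.of_forall fun V => ?_)
      (integrable_const _) (Filter.Eventually.of_forall fun V => crude_box ha n V)
    exact DU_nonneg _ fun x => by simp [ha]
  refine h1.trans (le_of_eq ?_)
  rw [integral_const, probReal_univ, one_smul]

/-- the bound near one energy -/
theorem de_local (hc : 0 < c) (hd : 2 ≤ d) {Es : ℝ} (h1 : -c < Es) (h2 : Es < 4 * d + c) :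
    ∃ δ C : ℝ, 0 < δ ∧ 0 ≤ C ∧ ∀ E : ℝ, |E - Es| < δ → ∀ a : ℝ, 0 < a → a ≤ 1 →
      QL.DE d c ⟨E, a⟩ ≤ ENNReal.ofReal (C / a ^ 2) := by
  obtain ⟨δ, C, a₀, hδ, ha₀, hC, H⟩ := box hc hd h1 h2
  refine ⟨δ, C + 4 * d / a₀ ^ 2, hδ, by positivity, fun E hE a ha ha1 => ?_⟩
  by_cases h : a < a₀
  · obtain ⟨n₀, hn⟩ := H E hE a ha h
    refine (GX.lim_box hc ha hC hn).trans (ENNReal.ofReal_le_ofReal ?_)
    have : 0 ≤ 4 * (d : ℝ) / a₀ ^ 2 := by positivity
    gcongr
    linarith
  · push Not at h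
    refine (de_crude hc ha).trans (ENNReal.ofReal_le_ofReal ?_)
    gcongr
    have h3 : 4 * (d : ℝ) / a ^ 2 ≤ 4 * d / a₀ ^ 2 := by gcongr
    linarith

/-- **the diffusive bound on compact sets of energies** -/
theorem de_compact (hc : 0 < c) (hd : 2 ≤ d) {K : Set ℝ} (hK : IsCompact K)
    (hKs : K ⊆ Set.Ioo (-c) (4 * d + c)) :
    ∃ C : ℝ, 0 ≤ C ∧ ∀ E ∈ K, ∀ a : ℝ, 0 < a → a ≤ 1 →
      QL.DE d c ⟨E, a⟩ ≤ ENNReal.ofReal (C / a ^ 2) := by
  refine IsCompact.induction_on (p := fun S => ∃ C : ℝ, 0 ≤ C ∧ ∀ E ∈ S, ∀ a : ℝ, 0 < a →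
    a ≤ 1 → QL.DE d c ⟨E, a⟩ ≤ ENNReal.ofReal (C / a ^ 2)) hK ?_ ?_ ?_ ?_
  · exact ⟨0, le_rfl, fun E hE => absurd hE (Set.notMem_empty E)⟩
  · rintro s t hst ⟨C, hC, h⟩
    exact ⟨C, hC, fun E hE => h E (hst hE)⟩
  · rintro s t ⟨C, hC, h⟩ ⟨C', hC', h'⟩
    refine ⟨C + C', by positivity, fun E hE a ha ha1 => ?_⟩
    rcases hE with hE | hE
    · refine (h E hE a ha ha1).trans (ENNReal.ofReal_le_ofReal ?_)
      gcongr
      linarith
    · refine (h' E hE a ha ha1).trans (ENNReal.ofReal_le_ofReal ?_)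
      gcongr
      linarith
  · intro Es hEs
    obtain ⟨δ, C, hδ, hC, h⟩ := de_local hc hd (hKs hEs).1 (hKs hEs).2
    refine ⟨Metric.ball Es δ, mem_nhdsWithin_of_mem_nhds (Metric.ball_mem_nhds Es hδ), C, hC,
      fun E hE => h E ?_⟩
    rwa [Metric.mem_ball, Real.dist_eq] at hE

end Pool.Agent.Lib.MP_562b47_mp.CD
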