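import Pool.Agent.Lib.MP_562b47_mp.LH.NumA

/-!
MP_562b47, every dimension `d`, Lemma H': the numerical inequality behind `LH.Num`.
Exponents: `d` (number of sites), `d + 1` (windows), `2 d + 1` (prices), `4 d + 4` (backgrounds).
-/

namespace Pool.Agent.Lib.MP_562b47_mp.CD

open Real Pool.Agent.Lib.MP_562b47_mp.LH

/-- number of blocks of the region (with the comparison block) -/
noncomputable def Bd (d : ℕ) : ℝ := 2 ^ d + 1

theorem Bd_pos (d : ℕ) : 0 < Bd d := by unfold Bd; positivity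

theorem Bd_ge (d : ℕ) : 2 ≤ Bd d := by
  have : (1 : ℝ) ≤ 2 ^ d := one_le_pow₀ (by norm_num)
  unfold Bd; linarith

section num

variable {d : ℕ} {C C1 α M : ℝ}

theorem M_pow_le (hM : 1 ≤ M) (i : ℕ) (hi : i ≤ 2 * d + 1) : M ^ i ≤ M ^ (2 * d + 1) :=
  pow_le_pow_right₀ hM hi

/-- `log`-type factor: `L ≤ C1 M^s` gives `L ≤ exp ((C1 + s) M)` -/
theorem L_le (hC1 : 1 ≤ C1) (hM : 1 ≤ M) {s : ℕ} {L : ℝ} (hL : L ≤ C1 * M ^ s) :
    L ≤ exp ((C1 + s) * M) := by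
  have h1 : M ^ s ≤ exp (s * M) :=
    pow_le_exp (t := s) (by linarith) (le_exp_self M) (by linarith) s le_rfl
  have h2 : C1 ≤ exp (C1 * M) := (le_exp_self C1).trans (exp_le_exp.2 (by nlinarith))
  calc L ≤ C1 * M ^ s := hL
    _ ≤ exp (C1 * M) * exp (s * M) :=
        mul_le_mul h2 h1 (by positivity) (exp_pos _).le
    _ = exp ((C1 + s) * M) := by rw [← exp_add]; ring_nf

/-- the constant of `ZZ` -/
noncomputable def CZ (d : ℕ) (C C1 α : ℝ) : ℝ :=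
  log C * (3 * Bd d * C1 + 3) + 2 * ((Bd d + 1) ^ 2 * C1 ^ 2) +
    (2 * Bd d + 4) * C1 * (107 + 16 * C1 + 6 * log α + (Bd d + 1) * C1) +
    (Bd d + 1) * C1 * (C1 + (4 * d + 4 : ℕ))

/-- the constant of the prefactor -/
noncomputable def CP (d : ℕ) (C1 : ℝ) : ℝ :=
  2 ^ d + ((4 + 4 * 2 ^ d) + ((C1 + (4 * d + 4 : ℕ)) + 4 * C1)) + (35 + C1)

theorem CZ_nonneg (hC : 1 ≤ C) (hC1 : 1 ≤ C1) (hα : 1 ≤ α) : 0 ≤ CZ d C C1 α := by
  have h1 := log_nonneg hC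
  have h2 := log_nonneg hα
  have h3 := Bd_pos d
  unfold CZ
  positivity

theorem CP_nonneg (hC1 : 1 ≤ C1) : 0 ≤ CP d C1 := by unfold CP; positivity

/-- bound of `ZZ` -/
theorem zz_le (hC : 1 ≤ C) (hC1 : 1 ≤ C1) (hα : 1 ≤ α) (hM : 1 ≤ M)
    {nB nF nL n : ℕ}
    (hB : (nB : ℝ) ≤ Bd d * C1 * M ^ d) (hF : (nF : ℝ) ≤ Bd d * C1 * M ^ d)
    (hLm : (nL : ℝ) ≤ Bd d * C1 * M ^ d) (hn : (n : ℝ) ≤ Bd d * C1 * M ^ d) {Γ0 L : ℝ}
    (hΓ1 : 1 ≤ Γ0) (hΓ : Γ0 ≤ exp (4 * C1 * M ^ (d + 1))) (hL0 : 0 ≤ L)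
    (hL : L ≤ C1 * M ^ (4 * d + 4)) :
    C ^ (3 * nB + 3) * ((nF + 1).factorial : ℝ) ^ 2 *
      (108 * (Γ0 ^ 4 * α ^ 6) * (n + 1)) ^ (2 * nF + 4) * L ^ (nL + 1) ≤
      exp (CZ d C C1 α * M ^ (2 * d + 1)) := by
  have hBd := Bd_ge d
  set B : ℝ := Bd d with hBdef
  have hM2 : 1 ≤ M ^ d := one_le_pow₀ hM
  have hM3 : 1 ≤ M ^ (d + 1) := one_le_pow₀ hM
  have hM5 : 1 ≤ M ^ (2 * d + 1) := one_le_pow₀ hM
  have h25 : M ^ d ≤ M ^ (2 * d + 1) := M_pow_le hM d (by omega)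
  have h35 : M ^ (d + 1) ≤ M ^ (2 * d + 1) := M_pow_le hM (d + 1) (by omega)
  have h45 : M ^ (2 * d) ≤ M ^ (2 * d + 1) := M_pow_le hM (2 * d) (by omega)
  have hlC := log_nonneg hC
  have hlα := log_nonneg hα
  have hCM : 1 ≤ C1 * M ^ d := by nlinarith
  -- (c)
  have hc : C ^ (3 * nB + 3) ≤ exp (log C * (3 * B * C1 + 3) * M ^ (2 * d + 1)) := by
    have h1 : C ≤ exp (log C) := by rw [exp_log (by linarith)]
    refine (pow_le_exp (t := (3 * B * C1 + 3) * M ^ (2 * d + 1)) (by linarith) h1 hlC _ ?_).trans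
      (exp_le_exp.2 (le_of_eq (by ring)))
    push_cast
    have h2 : B * C1 * M ^ d ≤ B * C1 * M ^ (2 * d + 1) :=
      mul_le_mul_of_nonneg_left h25 (by positivity)
    have h3 : (3 * B * C1 + 3) * M ^ (2 * d + 1) =
        3 * (B * C1 * M ^ (2 * d + 1)) + 3 * M ^ (2 * d + 1) := by ring
    rw [h3]
    linarith
  -- (d)
  have hd1 : ((nF + 1 : ℕ) : ℝ) ≤ (B + 1) * C1 * M ^ d := by
    push_cast
    have : (B + 1) * C1 * M ^ d = B * C1 * M ^ d + C1 * M ^ d := by ring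
    rw [this]
    linarith
  have hd : ((nF + 1).factorial : ℝ) ^ 2 ≤ exp (2 * ((B + 1) ^ 2 * C1 ^ 2) * M ^ (2 * d + 1)) := by
    have h1 : ((nF + 1).factorial : ℝ) ≤ ((nF + 1 : ℕ) : ℝ) ^ (nF + 1) := by
      exact_mod_cast Nat.factorial_le_pow (nF + 1)
    have h2 : ((nF + 1 : ℕ) : ℝ) ^ (nF + 1) ≤ exp ((B + 1) * C1 * M ^ d * ((nF + 1 : ℕ) : ℝ)) :=
      pow_le_exp (by positivity) (le_exp_self _) (by positivity) _ hd1
    have h3 : (B + 1) * C1 * M ^ d * ((nF + 1 : ℕ) : ℝ) ≤ (B + 1) ^ 2 * C1 ^ 2 * M ^ (2 * d + 1) := by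
      calc (B + 1) * C1 * M ^ d * ((nF + 1 : ℕ) : ℝ) ≤
            (B + 1) * C1 * M ^ d * ((B + 1) * C1 * M ^ d) :=
            mul_le_mul_of_nonneg_left hd1 (by positivity)
        _ = (B + 1) ^ 2 * C1 ^ 2 * M ^ (2 * d) := by ring
        _ ≤ (B + 1) ^ 2 * C1 ^ 2 * M ^ (2 * d + 1) :=
            mul_le_mul_of_nonneg_left h45 (by positivity)
    have h4 : ((nF + 1).factorial : ℝ) ≤ exp ((B + 1) ^ 2 * C1 ^ 2 * M ^ (2 * d + 1)) :=
      h1.trans (h2.trans (exp_le_exp.2 h3))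
    calc ((nF + 1).factorial : ℝ) ^ 2 ≤ exp ((B + 1) ^ 2 * C1 ^ 2 * M ^ (2 * d + 1)) ^ 2 :=
          pow_le_pow_left₀ (by positivity) h4 2
      _ = exp (2 * ((B + 1) ^ 2 * C1 ^ 2) * M ^ (2 * d + 1)) := by
          rw [← exp_nat_mul]; push_cast; ring_nf
  -- (e)
  have he1 : 108 * (Γ0 ^ 4 * α ^ 6) * ((n : ℝ) + 1) ≤
      exp ((107 + 16 * C1 + 6 * log α + (B + 1) * C1) * M ^ (d + 1)) := by
    have e1 : (108 : ℝ) ≤ exp (107 * M ^ (d + 1)) := by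
      have : (108 : ℝ) ≤ exp 107 := by linarith [add_one_le_exp (107 : ℝ)]
      exact this.trans (exp_le_exp.2 (by linarith))
    have e2 : Γ0 ^ 4 ≤ exp (16 * C1 * M ^ (d + 1)) := by
      have := pow_le_exp (t := 4) (by linarith) hΓ (by positivity) 4 (by norm_num)
      refine this.trans (exp_le_exp.2 (by linarith))
    have e3 : α ^ 6 ≤ exp (6 * log α * M ^ (d + 1)) := by
      have h1 : α ≤ exp (log α) := by rw [exp_log (by linarith)]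
      have := pow_le_exp (t := 6) (by linarith) h1 hlα 6 (by norm_num)
      refine this.trans (exp_le_exp.2 ?_)
      nlinarith
    have e4 : (n : ℝ) + 1 ≤ exp ((B + 1) * C1 * M ^ (d + 1)) := by
      refine (le_exp_self _).trans (exp_le_exp.2 ?_)
      have h23 : M ^ d ≤ M ^ (d + 1) := pow_le_pow_right₀ hM (by omega)
      have h5 : (B + 1) * C1 * M ^ d ≤ (B + 1) * C1 * M ^ (d + 1) :=
        mul_le_mul_of_nonneg_left h23 (by positivity)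
      have h6 : (B + 1) * C1 * M ^ d = B * C1 * M ^ d + C1 * M ^ d := by ring
      linarith
    have hΓ4 : 0 ≤ Γ0 ^ 4 := by positivity
    have hα6 : 0 ≤ α ^ 6 := by positivity
    obtain ⟨f1, f1'⟩ := mul_le_exp hΓ4 hα6 e2 e3
    obtain ⟨f2, f2'⟩ := mul_le_exp (by norm_num) f1' e1 f1
    obtain ⟨f3, _⟩ := mul_le_exp f2' (by positivity : (0:ℝ) ≤ (n : ℝ) + 1) f2 e4
    refine f3.trans (exp_le_exp.2 (le_of_eq (by ring)))
  have he : (108 * (Γ0 ^ 4 * α ^ 6) * ((n : ℝ) + 1)) ^ (2 * nF + 4) ≤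
      exp ((2 * B + 4) * C1 * (107 + 16 * C1 + 6 * log α + (B + 1) * C1) * M ^ (2 * d + 1)) := by
    have hK : 0 ≤ 107 + 16 * C1 + 6 * log α + (B + 1) * C1 := by positivity
    refine (pow_le_exp (t := (2 * B + 4) * C1 * M ^ d) (by positivity) he1 (by positivity) _
      ?_).trans (exp_le_exp.2 (le_of_eq (by ring)))
    push_cast
    have : (2 * B + 4) * C1 * M ^ d = 2 * (B * C1 * M ^ d) + 4 * (C1 * M ^ d) := by ring
    rw [this]
    linarith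
  -- (f)
  have hf : L ^ (nL + 1) ≤ exp ((B + 1) * C1 * (C1 + (4 * d + 4 : ℕ)) * M ^ (2 * d + 1)) := by
    refine (pow_le_exp (t := (B + 1) * C1 * M ^ d) hL0 (L_le hC1 hM hL) (by positivity) _
      ?_).trans (exp_le_exp.2 ?_)
    · push_cast
      have : (B + 1) * C1 * M ^ d = B * C1 * M ^ d + C1 * M ^ d := by ring
      rw [this]
      linarith
    · calc (B + 1) * C1 * M ^ d * ((C1 + (4 * d + 4 : ℕ)) * M) =
            (B + 1) * C1 * (C1 + (4 * d + 4 : ℕ)) * M ^ (d + 1) := by ring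
        _ ≤ (B + 1) * C1 * (C1 + (4 * d + 4 : ℕ)) * M ^ (2 * d + 1) :=
            mul_le_mul_of_nonneg_left h35 (by positivity)
  obtain ⟨g1, g1'⟩ := mul_le_exp (by positivity) (by positivity) hc hd
  obtain ⟨g2, g2'⟩ := mul_le_exp g1' (by positivity) g1 he
  obtain ⟨g3, _⟩ := mul_le_exp g2' (by positivity) g2 hf
  exact g3

/-- bound of the prefactor -/
theorem pre_le (hd : 2 ≤ d) (hC1 : 1 ≤ C1) (hM : 1 ≤ M) {k : ℕ} (hk : k ≤ 2 ^ d) {L G D : ℝ}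
    (hL0 : 0 ≤ L) (hL : L ≤ C1 * M ^ (4 * d + 4)) (hG1 : 1 ≤ G)
    (hG : G ≤ exp (4 * C1 * M ^ (d + 1))) (hD0 : 0 ≤ D) (hD : D ≤ 16 * C1 * M ^ 2) :
    2 ^ k * (2 + 2 * L * G + 4 * (k : ℝ)) * (2 + 2 * D) ≤ exp (CP d C1 * M ^ (2 * d + 1)) := by
  have hM2 : 1 ≤ M ^ 2 := one_le_pow₀ hM
  have hM5 : 1 ≤ M ^ (2 * d + 1) := one_le_pow₀ hM
  have h15 : M ≤ M ^ (2 * d + 1) := by simpa using M_pow_le (d := d) hM 1 (by omega)
  have h25 : M ^ 2 ≤ M ^ (2 * d + 1) := M_pow_le hM 2 (by omega)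
  have h35 : M ^ (d + 1) ≤ M ^ (2 * d + 1) := M_pow_le hM (d + 1) (by omega)
  have hk' : (k : ℝ) ≤ 2 ^ d := by exact_mod_cast hk
  have hK1 : (1 : ℝ) ≤ 2 ^ d := one_le_pow₀ (by norm_num)
  have ha : (2 : ℝ) ^ k ≤ exp (2 ^ d * M ^ (2 * d + 1)) := by
    have h2 : (2 : ℝ) ≤ exp 1 := by linarith [add_one_le_exp (1 : ℝ)]
    have h3 := pow_le_exp (t := 2 ^ d) (by norm_num) h2 (by norm_num) k hk'
    refine h3.trans (exp_le_exp.2 ?_)
    rw [mul_one]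
    nlinarith
  have hL' : L ≤ exp ((C1 + (4 * d + 4 : ℕ)) * M ^ (2 * d + 1)) :=
    (L_le hC1 hM hL).trans (exp_le_exp.2 (mul_le_mul_of_nonneg_left h15 (by positivity)))
  have hG' : G ≤ exp (4 * C1 * M ^ (2 * d + 1)) :=
    hG.trans (exp_le_exp.2 (mul_le_mul_of_nonneg_left h35 (by positivity)))
  obtain ⟨h1, h1'⟩ := mul_le_exp hL0 (by linarith) hL' hG'
  have hb : 2 + 2 * L * G + 4 * (k : ℝ) ≤
      exp (((4 + 4 * 2 ^ d) + ((C1 + (4 * d + 4 : ℕ)) + 4 * C1)) * M ^ (2 * d + 1)) := by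
    have e1 : 1 ≤ exp (((C1 + (4 * d + 4 : ℕ)) + 4 * C1) * M ^ (2 * d + 1)) :=
      one_le_exp (by positivity)
    have e2 : (4 + 4 * 2 ^ d : ℝ) ≤ exp ((4 + 4 * 2 ^ d) * M ^ (2 * d + 1)) := by
      refine (le_exp_self _).trans (exp_le_exp.2 ?_)
      have : (0 : ℝ) ≤ 4 + 4 * 2 ^ d := by positivity
      nlinarith
    rw [add_mul, exp_add]
    nlinarith
  have hg : 2 + 2 * D ≤ exp ((35 + C1) * M ^ (2 * d + 1)) := by
    have e1 : 2 + 2 * D ≤ 34 * (C1 * M ^ 2) := by nlinarith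
    have e2 : (34 : ℝ) ≤ exp (33 * M ^ (2 * d + 1)) := by
      have : (34 : ℝ) ≤ exp 33 := by linarith [add_one_le_exp (33 : ℝ)]
      exact this.trans (exp_le_exp.2 (by linarith))
    have e3 : C1 ≤ exp (C1 * M ^ (2 * d + 1)) :=
      (le_exp_self C1).trans (exp_le_exp.2 (by nlinarith))
    have e4 : M ^ 2 ≤ exp (2 * M ^ (2 * d + 1)) := by
      have := pow_le_exp (t := 2) (by linarith) (le_exp_self M) (by linarith) 2 (by norm_num)
      exact this.trans (exp_le_exp.2 (by linarith))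
    obtain ⟨f1, f1'⟩ := mul_le_exp (by linarith) (by positivity) e3 e4
    obtain ⟨f2, _⟩ := mul_le_exp (by norm_num) f1' e2 f1
    refine e1.trans (f2.trans (exp_le_exp.2 (le_of_eq (by ring))))
  have hpos : 0 ≤ 2 + 2 * L * G + 4 * (k : ℝ) := by
    have : 0 ≤ L * G := h1'
    nlinarith [Nat.cast_nonneg (α := ℝ) k]
  obtain ⟨f1, f1'⟩ := mul_le_exp (by positivity) hpos ha hb
  obtain ⟨f2, _⟩ := mul_le_exp f1' (by linarith) f1 hg
  exact f2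

theorem four_pow_ge (hd : 2 ≤ d) : 3 * d + 2 ≤ 4 ^ d := by
  induction d, hd using Nat.le_induction with
  | base => norm_num
  | succ n hn ih => rw [pow_succ]; omega

/-- the summability condition -/
theorem sumcond (hd : 2 ≤ d) (hC1 : 1 ≤ C1) {x : ℝ} (hx : 3 * C1 ≤ x) (hx2 : 2 ≤ x) :
    C1 ^ 3 * x ^ (3 * d) * exp (-x ^ (2 * d + 1)) ≤ exp (-x) := by
  have h1 : C1 ^ 3 ≤ exp (3 * C1) :=
    (pow_le_exp (t := 3) (by linarith) (le_exp_self C1) (by linarith) 3 (by norm_num))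
  have h2 : x ^ (3 * d) ≤ exp ((3 * d : ℕ) * x) :=
    (pow_le_exp (t := (3 * d : ℕ)) (by linarith) (le_exp_self x) (by linarith) (3 * d) le_rfl)
  have h3 : C1 ^ 3 * x ^ (3 * d) ≤ exp (3 * C1) * exp ((3 * d : ℕ) * x) :=
    mul_le_mul h1 h2 (by positivity) (exp_pos _).le
  have h4 : (3 * d + 2 : ℕ) * x ≤ x ^ (2 * d + 1) := by
    have e1 : (2 : ℝ) ^ (2 * d) ≤ x ^ (2 * d) := pow_le_pow_left₀ (by norm_num) hx2 (2 * d)
    have e2 : ((3 * d + 2 : ℕ) : ℝ) ≤ (2 : ℝ) ^ (2 * d) := by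
      have := four_pow_ge hd
      rw [pow_mul]
      have h5 : ((2 : ℝ) ^ 2) ^ d = ((4 ^ d : ℕ) : ℝ) := by push_cast; norm_num
      rw [h5]
      exact_mod_cast this
    rw [pow_succ]
    exact mul_le_mul_of_nonneg_right (e2.trans e1) (by linarith)
  calc C1 ^ 3 * x ^ (3 * d) * exp (-x ^ (2 * d + 1)) ≤
        exp (3 * C1) * exp ((3 * d : ℕ) * x) * exp (-x ^ (2 * d + 1)) :=
        mul_le_mul_of_nonneg_right h3 (exp_pos _).le
    _ = exp (3 * C1 + (3 * d : ℕ) * x + -x ^ (2 * d + 1)) := by rw [exp_add, exp_add]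
    _ ≤ exp (-x) := exp_le_exp.2 (by push_cast at h4 ⊢; linarith)

end num

end Pool.Agent.Lib.MP_562b47_mp.CD
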