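import Pool.Agent.Lib.MP_562b47_mp.LH.Num
import Pool.Agent.Lib.MP_562b47_mp.LH.Sum
import Pool.Agent.Lib.MP_562b47_mp.LG.Reg
import Pool.Agent.Lib.MP_562b47_mp.CD.NumA

/-!
MP_562b47, every dimension `d`, Lemma H': the structure `LH.Num` from bounds of the blocks by class.
-/

open MeasureTheory Matrix Finset

namespace Pool.Agent.Lib.MP_562b47_mp.CD

open Pool.Agent.Lib.MP_562b47_mp.AL Pool.Agent.Lib.MP_562b47_mp.WO Pool.Agent.Lib.MP_562b47_mp.LW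
  Pool.Agent.Lib.MP_562b47_mp Pool.Agent.Lib.MP_562b47_mp.LH

set_option linter.unusedSectionVars false

variable {ι 𝔅 κ' : Type} [Fintype ι] [DecidableEq ι] [Fintype 𝔅] [DecidableEq 𝔅] [Fintype κ']

/-- `N b = N0 + cls b` -/
def NN (S : Sys ι 𝔅) (N0 : ℕ) (b : 𝔅) : ℝ := ((N0 + S.cls b : ℕ) : ℝ)

/-- bounds of the blocks by class (dimension `d`) -/
structure ClsD (d : ℕ) (S : Sys ι 𝔅) (A : Matrix ι ι ℝ) (m : ℕ) (a : ℝ) (ξ : κ' → ι → ℝ)
    (good : Finset ι) (bs : ι → 𝔅) (N0 : ℕ) (C1 C3 Cw α : ℝ) (CI NI glo : ℕ → ℝ) : Prop where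
  quant : LG.Quant S A α CI NI glo
  nb : ∀ s ∈ good, LG.Nb S A (bs s)
  bs_cls : ∀ s ∈ good, S.cls (bs s) = m + 1
  card_Q : ∀ b, ((S.Q b).card : ℝ) ≤ C1 * NN S N0 b ^ d
  inn_big : ∀ b, NN S N0 b ^ d ≤ C1 * (((S.inn b).card : ℝ) - 1)
  win_le : ∀ b, ∀ x ∈ S.inn b,
    (S.hi b x - S.lo b x) / (2 * S.c) ≤ Real.exp (-(Cw * NN S N0 b ^ (d + 1)))
  win_ge : ∀ b, ∀ x ∈ S.Q b, x ≠ S.w b →
    Real.exp (-(C3 * NN S N0 b ^ (d + 1))) ≤ S.hi b x - S.lo b x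
  diam : ∀ b, ∀ x ∈ S.Q b, ∀ y ∈ S.Q b, ff ξ x y ≤ C1 * NN S N0 b ^ 2
  Gb_le : ∀ b, LG.Gb α (CI (S.cls b)) (NI (S.cls b)) (glo (S.cls b)) S.r ≤
    Real.exp (C1 * NN S N0 b ^ (d + 1))
  glo_ge : ∀ b, Real.exp (-(C1 * NN S N0 b ^ (d + 1))) ≤ glo (S.cls b)
  count : ∀ (j : ℕ) (y : ι), ((univ.filter fun b => S.cls b = j ∧ y ∈ S.Q b).card : ℝ) ≤
    C1 * ((N0 + j : ℕ) : ℝ) ^ d
  log_a : Real.log (2 / a) ≤ C1 * ((N0 + (m + 1) : ℕ) : ℝ) ^ (4 * d + 4)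
  /-- pairwise disjoint blocks meeting `Q (bs s)` -/
  nbr : ∀ s ∈ good, ∀ σ : Finset 𝔅, (∀ b ∈ σ, m < S.cls b) →
    (∀ b ∈ σ, ¬ Disjoint (S.Q b) (S.Q (bs s))) →
    (∀ b ∈ σ, ∀ b' ∈ σ, b ≠ b' → Disjoint (S.Q b) (S.Q b')) → σ.card ≤ 2 ^ d

section sub

variable (S : Sys ι 𝔅) (b0 : 𝔅) (σ σA : Finset 𝔅) (s : ι)

theorem mem_Reg' {y : ι} : y ∈ Reg S b0 σ ↔ y ∈ S.Q b0 ∨ ∃ b ∈ σ, y ∈ S.Q b := by
  classical
  unfold Reg
  simp only [Finset.mem_union, Finset.mem_biUnion]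

theorem Fz_sub (hA : σA ⊆ σ) : Fz S σ σA s ⊆ Reg S b0 σ := by
  intro y hy
  unfold Fz at hy
  rw [Finset.mem_erase, Finset.mem_union, Finset.mem_biUnion, Finset.mem_image] at hy
  rw [mem_Reg']
  rcases hy.2 with ⟨b, hb, h⟩ | ⟨b, hb, h⟩
  · exact Or.inr ⟨b, hb, S.inn_sub h⟩
  · exact Or.inr ⟨b, hA hb, h ▸ S.w_mem b⟩

theorem Lm_sub : Lm S b0 σ σA s ⊆ Reg S b0 σ := by
  classical
  intro y hy
  unfold Lm at hy
  exact (Finset.mem_sdiff.1 (Finset.mem_erase.1 hy).2).1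

theorem BB_sub (hA : σA ⊆ σ) (hs : s ∈ Reg S b0 σ) :
    BB (Lm S b0 σ σA s) (Fz S σ σA s) s ⊆ Reg S b0 σ := by
  classical
  intro y hy
  unfold BB at hy
  rw [Finset.mem_insert, Finset.mem_union] at hy
  rcases hy with h | h | h
  · exact h ▸ hs
  · exact Lm_sub S b0 σ σA s h
  · exact Fz_sub S b0 σ σA s hA h

theorem card_Reg_le : ((Reg S b0 σ).card : ℝ) ≤ (S.Q b0).card + ∑ b ∈ σ, ((S.Q b).card : ℝ) := by
  classical
  have h1 : (Reg S b0 σ).card ≤ (S.Q b0).card + ∑ b ∈ σ, (S.Q b).card := by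
    have e1 : Reg S b0 σ = S.Q b0 ∪ σ.biUnion S.Q := by
      ext y
      rw [mem_Reg', Finset.mem_union, Finset.mem_biUnion]
    rw [e1]
    exact (Finset.card_union_le _ _).trans (Nat.add_le_add_left Finset.card_biUnion_le _)
  calc ((Reg S b0 σ).card : ℝ) ≤ (((S.Q b0).card + ∑ b ∈ σ, (S.Q b).card : ℕ) : ℝ) := by
        exact_mod_cast h1
    _ = _ := by push_cast; rfl

end sub

/-- sums over classes -/
theorem sum_cls (S : Sys ι 𝔅) (N0 m : ℕ) (hN0 : 2 ≤ N0) (B : Finset 𝔅) (f : ℕ → ℝ)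
    (hB : ∀ b ∈ B, m < S.cls b)
    (h : ∀ j, m < j → ((B.filter fun b => S.cls b = j).card : ℝ) * f j ≤
      Real.exp (-((N0 + j : ℕ) : ℝ))) :
    ∑ b ∈ B, f (S.cls b) ≤ 1 / 2 := by
  classical
  have h1 : ∑ b ∈ B, f (S.cls b) =
      ∑ j ∈ B.image S.cls, ((B.filter fun b => S.cls b = j).card : ℝ) * f j := by
    rw [← Finset.sum_fiberwise_of_maps_to (t := B.image S.cls) (g := S.cls)
      (fun b hb => Finset.mem_image_of_mem _ hb)]
    refine Finset.sum_congr rfl fun j _ => ?_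
    rw [Finset.sum_congr rfl (g := fun _ => f j)
      (fun b hb => by rw [(Finset.mem_filter.1 hb).2]), Finset.sum_const, nsmul_eq_mul]
  rw [h1]
  have h2 : ∀ j ∈ B.image S.cls, ((B.filter fun b => S.cls b = j).card : ℝ) * f j ≤
      (1 / 4) * (1 / 2 : ℝ) ^ j := by
    intro j hj
    obtain ⟨b, hb, rfl⟩ := Finset.mem_image.1 hj
    refine (h _ (hB b hb)).trans ?_
    have e1 : Real.exp (-1) ≤ 1 / 2 := by
      have : (2 : ℝ) ≤ Real.exp 1 := by linarith [Real.add_one_le_exp (1 : ℝ)]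
      rw [Real.exp_neg, one_div]
      exact inv_anti₀ (by norm_num) this
    have e2 : Real.exp (-((N0 + S.cls b : ℕ) : ℝ)) = Real.exp (-1) ^ (N0 + S.cls b) := by
      rw [← Real.exp_nat_mul]
      congr 1
      ring
    rw [e2]
    calc Real.exp (-1) ^ (N0 + S.cls b) ≤ (1 / 2 : ℝ) ^ (N0 + S.cls b) :=
          pow_le_pow_left₀ (Real.exp_pos _).le e1 _
      _ = (1 / 2 : ℝ) ^ N0 * (1 / 2 : ℝ) ^ S.cls b := pow_add _ _ _
      _ ≤ (1 / 4) * (1 / 2 : ℝ) ^ S.cls b := by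
          refine mul_le_mul_of_nonneg_right ?_ (by positivity)
          calc (1 / 2 : ℝ) ^ N0 ≤ (1 / 2 : ℝ) ^ 2 :=
                pow_le_pow_of_le_one (by norm_num) (by norm_num) hN0
            _ = 1 / 4 := by norm_num
  refine (Finset.sum_le_sum h2).trans ?_
  rw [← Finset.mul_sum]
  have h3 : ∑ j ∈ B.image S.cls, (1 / 2 : ℝ) ^ j ≤ 2 := by
    obtain ⟨n, hn⟩ : ∃ n, B.image S.cls ⊆ Finset.range n := Finset.exists_nat_subset_range _
    refine (Finset.sum_le_sum_of_subset_of_nonneg hn fun _ _ _ => by positivity).trans ?_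
    exact sum_geometric_two_le n
  linarith

/-- the price of the inner windows -/
theorem PF_le (d : ℕ) (S : Sys ι 𝔅) (N0 : ℕ) (C1 Cw : ℝ) (hC1 : 1 ≤ C1) (hCw : 0 ≤ Cw)
    (inn_big : ∀ b, NN S N0 b ^ d ≤ C1 * (((S.inn b).card : ℝ) - 1))
    (win_le : ∀ b, ∀ x ∈ S.inn b,
      (S.hi b x - S.lo b x) / (2 * S.c) ≤ Real.exp (-(Cw * NN S N0 b ^ (d + 1))))
    (σ : Finset 𝔅) (s : ι) :
    PF S σ s ≤ Real.exp (-(Cw / C1 * ∑ b ∈ σ, NN S N0 b ^ (2 * d + 1))) ∧ 0 ≤ PF S σ s := by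
  have hc := S.c_pos
  have h0 : ∀ b x, 0 ≤ (S.hi b x - S.lo b x) / (2 * S.c) := fun b x =>
    div_nonneg (by linarith [S.lo_lt b x]) (by linarith)
  have hN : ∀ b, 0 ≤ NN S N0 b := fun b => Nat.cast_nonneg _
  have h1 : ∀ b ∈ σ, ∏ x ∈ (S.inn b).erase s, ((S.hi b x - S.lo b x) / (2 * S.c)) ≤
      Real.exp (-(Cw / C1 * NN S N0 b ^ (2 * d + 1))) := by
    intro b _
    have e1 : ∏ x ∈ (S.inn b).erase s, ((S.hi b x - S.lo b x) / (2 * S.c)) ≤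
        ∏ _x ∈ (S.inn b).erase s, Real.exp (-(Cw * NN S N0 b ^ (d + 1))) :=
      Finset.prod_le_prod (fun x _ => h0 b x) fun x hx => win_le b x (Finset.mem_of_mem_erase hx)
    rw [Finset.prod_const, ← Real.exp_nat_mul] at e1
    refine e1.trans (Real.exp_le_exp.2 ?_)
    have e2 : ((S.inn b).card : ℝ) - 1 ≤ (((S.inn b).erase s).card : ℝ) := by
      have := Finset.pred_card_le_card_erase (s := S.inn b) (a := s)
      have h' : (S.inn b).card ≤ ((S.inn b).erase s).card + 1 := by omega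
      have h'' : ((S.inn b).card : ℝ) ≤ ((S.inn b).erase s).card + 1 := by exact_mod_cast h'
      linarith
    have e3 := inn_big b
    have e4 : NN S N0 b ^ d / C1 ≤ (((S.inn b).erase s).card : ℝ) := by
      rw [div_le_iff₀ (by linarith)]
      nlinarith
    have e5 : 0 ≤ Cw * NN S N0 b ^ (d + 1) := mul_nonneg hCw (pow_nonneg (hN b) _)
    have e6 : Cw / C1 * NN S N0 b ^ (2 * d + 1) = NN S N0 b ^ d / C1 * (Cw * NN S N0 b ^ (d + 1)) := by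
      rw [show 2 * d + 1 = d + (d + 1) by ring, pow_add (NN S N0 b) d (d + 1)]
      ring
    rw [e6]
    nlinarith [mul_le_mul_of_nonneg_right e4 e5]
  constructor
  · calc PF S σ s ≤ ∏ b ∈ σ, Real.exp (-(Cw / C1 * NN S N0 b ^ (2 * d + 1))) :=
          Finset.prod_le_prod (fun b _ => Finset.prod_nonneg fun x _ => h0 b x) h1
      _ = Real.exp (-(Cw / C1 * ∑ b ∈ σ, NN S N0 b ^ (2 * d + 1))) := by
          rw [← Real.exp_sum, Finset.mul_sum, Finset.sum_neg_distrib]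
  · exact Finset.prod_nonneg fun b _ => Finset.prod_nonneg fun x _ => h0 b x

/-- the price of the windows of the comparison gadget -/
theorem WG_le (d : ℕ) (S : Sys ι 𝔅) (N0 : ℕ) (C1 C3 : ℝ) (hC3 : 0 ≤ C3) (b0 : 𝔅)
    (card_Q : ((S.Q b0).card : ℝ) ≤ C1 * NN S N0 b0 ^ d)
    (win_ge : ∀ x ∈ S.Q b0, x ≠ S.w b0 →
      Real.exp (-(C3 * NN S N0 b0 ^ (d + 1))) ≤ S.hi b0 x - S.lo b0 x) :
    WG S b0 ≤ Real.exp (3 * C3 * C1 * NN S N0 b0 ^ (2 * d + 1)) ∧ 0 ≤ WG S b0 := by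
  have hN : 0 ≤ NN S N0 b0 := Nat.cast_nonneg _
  have h0 : ∀ x, 0 < S.hi b0 x - S.lo b0 x := fun x => by linarith [S.lo_lt b0 x]
  constructor
  · have h1 : WG S b0 ≤ ∏ _x ∈ (S.Q b0).erase (S.w b0), Real.exp (3 * C3 * NN S N0 b0 ^ (d + 1)) := by
      refine Finset.prod_le_prod (fun x _ => by have := h0 x; positivity) fun x hx => ?_
      have h2 := win_ge x (Finset.mem_of_mem_erase hx) (Finset.ne_of_mem_erase hx)
      have h3 : Real.exp (-(C3 * NN S N0 b0 ^ (d + 1))) ^ 3 ≤ (S.hi b0 x - S.lo b0 x) ^ 3 :=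
        pow_le_pow_left₀ (Real.exp_pos _).le h2 3
      have h4 : ((S.hi b0 x - S.lo b0 x) ^ 3)⁻¹ ≤ (Real.exp (-(C3 * NN S N0 b0 ^ (d + 1))) ^ 3)⁻¹ :=
        inv_anti₀ (by positivity) h3
      refine h4.trans (le_of_eq ?_)
      rw [← Real.exp_nat_mul, ← Real.exp_neg]
      congr 1
      push_cast
      ring
    refine h1.trans ?_
    rw [Finset.prod_const, ← Real.exp_nat_mul]
    refine Real.exp_le_exp.2 ?_
    have h5 : (((S.Q b0).erase (S.w b0)).card : ℝ) ≤ C1 * NN S N0 b0 ^ d :=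
      le_trans (by exact_mod_cast Finset.card_erase_le) card_Q
    have h6 : 0 ≤ 3 * C3 * NN S N0 b0 ^ (d + 1) := by positivity
    calc (((S.Q b0).erase (S.w b0)).card : ℝ) * (3 * C3 * NN S N0 b0 ^ (d + 1)) ≤
        C1 * NN S N0 b0 ^ d * (3 * C3 * NN S N0 b0 ^ (d + 1)) := mul_le_mul_of_nonneg_right h5 h6
      _ = 3 * C3 * C1 * NN S N0 b0 ^ (2 * d + 1) := by ring
  · exact Finset.prod_nonneg fun x _ => by have := h0 x; positivity

/-- triangle inequality for the squared distance -/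
theorem ff_tri (ξ : κ' → ι → ℝ) (x y z : ι) : ff ξ x z ≤ 2 * ff ξ x y + 2 * ff ξ y z := by
  unfold ff
  rw [Finset.mul_sum, Finset.mul_sum, ← Finset.sum_add_distrib]
  refine Finset.sum_le_sum fun j _ => ?_
  nlinarith [sq_nonneg ((ξ j x - ξ j y) - (ξ j y - ξ j z))]


section sums

variable {d : ℕ} {S : Sys ι 𝔅} {N0 m : ℕ} {C1 : ℝ} {good : Finset ι} {bs : ι → 𝔅}

/-- (S1) -/
theorem S1_of (hd : 2 ≤ d) (hC1 : 1 ≤ C1) (hN0 : 2 ≤ N0) (hN1 : 3 * C1 ≤ N0) (b0 : 𝔅) (hb0 : S.cls b0 = m + 1)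
    (card_Q : ∀ b, ((S.Q b).card : ℝ) ≤ C1 * NN S N0 b ^ d)
    (count : ∀ (j : ℕ) (y : ι), ((univ.filter fun b => S.cls b = j ∧ y ∈ S.Q b).card : ℝ) ≤
      C1 * ((N0 + j : ℕ) : ℝ) ^ d) :
    ∑ b ∈ NB S m b0, Real.exp (-(NN S N0 b ^ (2 * d + 1))) ≤ 1 / 2 := by
  classical
  refine sum_cls S N0 m hN0 _ (fun j => Real.exp (-(((N0 + j : ℕ) : ℝ) ^ (2 * d + 1))))
    (fun b hb => ?_) (fun j hj => ?_)
  · unfold NB at hb
    exact (Finset.mem_filter.1 hb).2.1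
  · have h1 : ((NB S m b0).filter fun b => S.cls b = j) ⊆
        (S.Q b0).biUnion fun y => univ.filter fun b => S.cls b = j ∧ y ∈ S.Q b := by
      intro b hb
      rw [Finset.mem_filter] at hb
      unfold NB at hb
      obtain ⟨h2, h3⟩ := hb
      have h4 := (Finset.mem_filter.1 h2).2.2
      rw [Finset.not_disjoint_iff] at h4
      obtain ⟨y, hy, hy0⟩ := h4
      rw [Finset.mem_biUnion]
      exact ⟨y, hy0, Finset.mem_filter.2 ⟨Finset.mem_univ b, h3, hy⟩⟩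
    have h2 : ((((NB S m b0).filter fun b => S.cls b = j).card : ℕ) : ℝ) ≤
        ((S.Q b0).card : ℝ) * (C1 * ((N0 + j : ℕ) : ℝ) ^ d) := by
      calc ((((NB S m b0).filter fun b => S.cls b = j).card : ℕ) : ℝ) ≤
          ((∑ y ∈ S.Q b0, (univ.filter fun b => S.cls b = j ∧ y ∈ S.Q b).card : ℕ) : ℝ) := by
            exact_mod_cast (Finset.card_le_card h1).trans Finset.card_biUnion_le
        _ = ∑ y ∈ S.Q b0, ((univ.filter fun b => S.cls b = j ∧ y ∈ S.Q b).card : ℝ) := by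
            push_cast; rfl
        _ ≤ ∑ _y ∈ S.Q b0, C1 * ((N0 + j : ℕ) : ℝ) ^ d := Finset.sum_le_sum fun y _ => count j y
        _ = _ := by rw [Finset.sum_const, nsmul_eq_mul]
    set x : ℝ := ((N0 + j : ℕ) : ℝ) with hx
    have hx1 : NN S N0 b0 ≤ x := by
      rw [hx]; unfold NN; exact_mod_cast (by omega)
    have hxN : (N0 : ℝ) ≤ x := by rw [hx]; push_cast; linarith [Nat.cast_nonneg (α := ℝ) j]
    have hN2 : (2 : ℝ) ≤ N0 := by exact_mod_cast hN0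
    have h3 : ((S.Q b0).card : ℝ) ≤ C1 * x ^ d :=
      (card_Q b0).trans (mul_le_mul_of_nonneg_left
        (pow_le_pow_left₀ (Nat.cast_nonneg _) hx1 d) (by linarith))
    have h4 : ((((NB S m b0).filter fun b => S.cls b = j).card : ℕ) : ℝ) ≤
        C1 ^ 3 * x ^ (3 * d) := by
      refine h2.trans ((mul_le_mul_of_nonneg_right h3 (by positivity)).trans ?_)
      have e1 : C1 * x ^ d * (C1 * x ^ d) = C1 ^ 2 * x ^ (2 * d) := by ring
      rw [e1]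
      exact mul_le_mul (pow_le_pow_right₀ hC1 (by norm_num))
        (pow_le_pow_right₀ (by linarith) (by omega)) (by positivity) (by positivity)
    calc ((((NB S m b0).filter fun b => S.cls b = j).card : ℕ) : ℝ) *
          Real.exp (-(x ^ (2 * d + 1))) ≤ C1 ^ 3 * x ^ (3 * d) * Real.exp (-(x ^ (2 * d + 1))) :=
          mul_le_mul_of_nonneg_right h4 (Real.exp_pos _).le
      _ ≤ Real.exp (-x) := sumcond hd hC1 (hN1.trans hxN) (hN2.trans hxN)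

/-- (S2) -/
theorem S2_of (bs_w : ∀ s ∈ good, S.w (bs s) = s) (bs_cls : ∀ s ∈ good, S.cls (bs s) = m + 1)
    (count : ∀ (j : ℕ) (y : ι), ((univ.filter fun b => S.cls b = j ∧ y ∈ S.Q b).card : ℝ) ≤
      C1 * ((N0 + j : ℕ) : ℝ) ^ d) (y : ι) :
    ((good.filter fun s => y ∈ S.Q (bs s)).card : ℝ) ≤ C1 * ((N0 + (m + 1) : ℕ) : ℝ) ^ d := by
  refine le_trans ?_ (count (m + 1) y)
  have h1 : (good.filter fun s => y ∈ S.Q (bs s)).card ≤
      (univ.filter fun b => S.cls b = m + 1 ∧ y ∈ S.Q b).card := by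
    refine Finset.card_le_card_of_injOn bs (fun s hs => ?_) (fun s hs s' hs' h => ?_)
    · rw [Finset.mem_coe, Finset.mem_filter] at hs
      rw [Finset.mem_coe, Finset.mem_filter]
      exact ⟨Finset.mem_univ _, bs_cls s hs.1, hs.2⟩
    · rw [Finset.mem_coe, Finset.mem_filter] at hs hs'
      have e1 := bs_w s hs.1
      have e2 := bs_w s' hs'.1
      rw [← e1, ← e2, h]
  exact_mod_cast h1

open Classical in
/-- (S3) -/
theorem S3_of (hd : 2 ≤ d) (hC1 : 1 ≤ C1) (hN0 : 2 ≤ N0) (hN1 : 3 * C1 ≤ N0)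
    (bs_w : ∀ s ∈ good, S.w (bs s) = s) (bs_cls : ∀ s ∈ good, S.cls (bs s) = m + 1)
    (card_Q : ∀ b, ((S.Q b).card : ℝ) ≤ C1 * NN S N0 b ^ d)
    (count : ∀ (j : ℕ) (y : ι), ((univ.filter fun b => S.cls b = j ∧ y ∈ S.Q b).card : ℝ) ≤
      C1 * ((N0 + j : ℕ) : ℝ) ^ d) (y : ι) :
    ∑ b ∈ univ.filter (fun b => m < S.cls b ∧ y ∈ S.Q b), Real.exp (-(NN S N0 b ^ (2 * d + 1))) *
      ((good.filter fun s => ¬ Disjoint (S.Q b) (S.Q (bs s))).card : ℝ) ≤ 1 / 2 := by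
  have h1 : ∀ b ∈ univ.filter (fun b => m < S.cls b ∧ y ∈ S.Q b),
      Real.exp (-(NN S N0 b ^ (2 * d + 1))) *
        ((good.filter fun s => ¬ Disjoint (S.Q b) (S.Q (bs s))).card : ℝ) ≤
      (fun j : ℕ => C1 ^ 2 * ((N0 + j : ℕ) : ℝ) ^ (2 * d) * Real.exp (-(((N0 + j : ℕ) : ℝ) ^ (2 * d + 1))))
        (S.cls b) := by
    intro b hb
    have hm := (Finset.mem_filter.1 hb).2.1
    have h2 : (good.filter fun s => ¬ Disjoint (S.Q b) (S.Q (bs s))) ⊆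
        (S.Q b).biUnion fun z => good.filter fun s => z ∈ S.Q (bs s) := by
      intro s hs
      obtain ⟨hs1, hs2⟩ := Finset.mem_filter.1 hs
      rw [Finset.not_disjoint_iff] at hs2
      obtain ⟨z, hz, hz'⟩ := hs2
      rw [Finset.mem_biUnion]
      exact ⟨z, hz, Finset.mem_filter.2 ⟨hs1, hz'⟩⟩
    have h3 : ((good.filter fun s => ¬ Disjoint (S.Q b) (S.Q (bs s))).card : ℝ) ≤
        ((S.Q b).card : ℝ) * (C1 * ((N0 + (m + 1) : ℕ) : ℝ) ^ d) := by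
      calc ((good.filter fun s => ¬ Disjoint (S.Q b) (S.Q (bs s))).card : ℝ) ≤
          ((∑ z ∈ S.Q b, (good.filter fun s => z ∈ S.Q (bs s)).card : ℕ) : ℝ) := by
            exact_mod_cast (Finset.card_le_card h2).trans Finset.card_biUnion_le
        _ = ∑ z ∈ S.Q b, ((good.filter fun s => z ∈ S.Q (bs s)).card : ℝ) := by push_cast; rfl
        _ ≤ ∑ _z ∈ S.Q b, C1 * ((N0 + (m + 1) : ℕ) : ℝ) ^ d :=
            Finset.sum_le_sum fun z _ => by convert S2_of bs_w bs_cls count z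
        _ = _ := by rw [Finset.sum_const, nsmul_eq_mul]
    have h4 : ((N0 + (m + 1) : ℕ) : ℝ) ≤ ((N0 + S.cls b : ℕ) : ℝ) := by
      exact_mod_cast (by omega)
    have h5 : ((good.filter fun s => ¬ Disjoint (S.Q b) (S.Q (bs s))).card : ℝ) ≤
        C1 ^ 2 * ((N0 + S.cls b : ℕ) : ℝ) ^ (2 * d) := by
      refine h3.trans ?_
      have h6 := card_Q b
      unfold NN at h6
      have h7 : C1 * ((N0 + (m + 1) : ℕ) : ℝ) ^ d ≤ C1 * ((N0 + S.cls b : ℕ) : ℝ) ^ d :=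
        mul_le_mul_of_nonneg_left (pow_le_pow_left₀ (Nat.cast_nonneg _) h4 d) (by linarith)
      calc ((S.Q b).card : ℝ) * (C1 * ((N0 + (m + 1) : ℕ) : ℝ) ^ d) ≤
          (C1 * ((N0 + S.cls b : ℕ) : ℝ) ^ d) * (C1 * ((N0 + S.cls b : ℕ) : ℝ) ^ d) :=
            mul_le_mul h6 h7 (by positivity) (by positivity)
        _ = _ := by ring
    show _ ≤ C1 ^ 2 * ((N0 + S.cls b : ℕ) : ℝ) ^ (2 * d) * Real.exp (-(((N0 + S.cls b : ℕ) : ℝ) ^ (2 * d + 1)))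
    rw [mul_comm]
    exact mul_le_mul_of_nonneg_right h5 (Real.exp_pos _).le
  refine (Finset.sum_le_sum h1).trans ?_
  refine sum_cls S N0 m hN0 _
    (fun j : ℕ => C1 ^ 2 * ((N0 + j : ℕ) : ℝ) ^ (2 * d) * Real.exp (-(((N0 + j : ℕ) : ℝ) ^ (2 * d + 1))))
    (fun b hb => (Finset.mem_filter.1 hb).2.1) (fun j hj => ?_)
  have h2 : ((((univ.filter fun b => m < S.cls b ∧ y ∈ S.Q b).filter
      fun b => S.cls b = j).card : ℕ) : ℝ) ≤ C1 * ((N0 + j : ℕ) : ℝ) ^ d := by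
    refine le_trans ?_ (count j y)
    have : ((univ.filter fun b => m < S.cls b ∧ y ∈ S.Q b).filter fun b => S.cls b = j).card ≤
        (univ.filter fun b => S.cls b = j ∧ y ∈ S.Q b).card := by
      refine Finset.card_le_card fun b hb => ?_
      simp only [Finset.mem_filter, Finset.mem_univ, true_and] at hb ⊢
      exact ⟨hb.2, hb.1.2⟩
    exact_mod_cast this
  set x : ℝ := ((N0 + j : ℕ) : ℝ) with hx
  have hxN : (N0 : ℝ) ≤ x := by rw [hx]; push_cast; linarith [Nat.cast_nonneg (α := ℝ) j]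
  have hN2 : (2 : ℝ) ≤ N0 := by exact_mod_cast hN0
  calc ((((univ.filter fun b => m < S.cls b ∧ y ∈ S.Q b).filter
      fun b => S.cls b = j).card : ℕ) : ℝ) *
        (C1 ^ 2 * x ^ (2 * d) * Real.exp (-(x ^ (2 * d + 1)))) ≤
        C1 * x ^ d * (C1 ^ 2 * x ^ (2 * d) * Real.exp (-(x ^ (2 * d + 1)))) :=
          mul_le_mul_of_nonneg_right h2 (by positivity)
    _ = C1 ^ 3 * x ^ (3 * d) * Real.exp (-(x ^ (2 * d + 1))) := by ring
    _ ≤ Real.exp (-x) := sumcond hd hC1 (hN1.trans hxN) (hN2.trans hxN)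

end sums


section main

variable {d : ℕ} {S : Sys ι 𝔅} {A : Matrix ι ι ℝ} {m : ℕ} {a : ℝ} {ξ : κ' → ι → ℝ} {good : Finset ι}
  {bs : ι → 𝔅} {j0 j1 l0 : ℝ} {N0 : ℕ} {C C1 C3 Cw α : ℝ} {CI NI glo : ℕ → ℝ}

/-- `log (2 / a) ≥ 0` -/
theorem log2a_nonneg (ha : 0 < a) (ha2 : a ≤ 1 / 2) : 0 ≤ Real.log (2 / a) := by
  apply Real.log_nonneg
  rw [le_div_iff₀ ha]
  linarith

/-- the region is small -/
theorem card_Reg_le5 (hC1 : 1 ≤ C1) (b0 : 𝔅) (σ : Finset 𝔅) (M : ℝ) (hM0 : NN S N0 b0 ≤ M)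
    (hM : ∀ b ∈ σ, NN S N0 b ≤ M) (h4 : σ.card ≤ 2 ^ d)
    (card_Q : ∀ b, ((S.Q b).card : ℝ) ≤ C1 * NN S N0 b ^ d) :
    ((Reg S b0 σ).card : ℝ) ≤ Bd d * C1 * M ^ d := by
  have hN : ∀ b, 0 ≤ NN S N0 b := fun b => Nat.cast_nonneg _
  have hMn : 0 ≤ M := (hN b0).trans hM0
  have h1 := card_Reg_le S b0 σ
  have h2 : ((S.Q b0).card : ℝ) ≤ C1 * M ^ d :=
    (card_Q b0).trans (mul_le_mul_of_nonneg_left (pow_le_pow_left₀ (hN b0) hM0 d) (by linarith))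
  have h3 : ∑ b ∈ σ, ((S.Q b).card : ℝ) ≤ ∑ _b ∈ σ, C1 * M ^ d :=
    Finset.sum_le_sum fun b hb => (card_Q b).trans
      (mul_le_mul_of_nonneg_left (pow_le_pow_left₀ (hN b) (hM b hb) d) (by linarith))
  rw [Finset.sum_const, nsmul_eq_mul] at h3
  have h5 : (σ.card : ℝ) ≤ 2 ^ d := by exact_mod_cast h4
  have h6 : 0 ≤ C1 * M ^ d := by positivity
  have h7 : (σ.card : ℝ) * (C1 * M ^ d) ≤ 2 ^ d * (C1 * M ^ d) :=
    mul_le_mul_of_nonneg_right h5 h6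
  unfold Bd
  linarith

theorem crude_of (hd : 2 ≤ d) (hC : 1 ≤ C) (hC1 : 1 ≤ C1) (hα : 1 ≤ α)
    (hCw : C1 * (CZ d C C1 α + CP d C1 + 2) ≤ Cw) (hN0 : 2 ≤ N0) (hS : WO.Good S A)
    (hgeo : Geo S m ξ good bs j0 j1 l0) (ha : 0 < a) (ha2 : a ≤ 1 / 2)
    (hB : ClsD d S A m a ξ good bs N0 C1 C3 Cw α CI NI glo) (s : ι) (hs : s ∈ good) (σ : Finset 𝔅)
    (hσ : σ ∈ Adm S m (bs s)) (hne : σ.Nonempty) :
    ∃ Γ G D : ℝ, 1 ≤ Γ ∧ 1 ≤ G ∧ 0 ≤ D ∧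
    (∀ b ∈ σ, ∀ V, S.comp b V → (S.gg A b V)⁻¹ ≤ G) ∧
    (∀ x ∈ Reg S (bs s) σ, ff ξ x s ≤ D) ∧
    (∀ σA ⊆ σ, (∀ b ∈ σA, s ≠ S.w b) → (∀ b ∈ σ, s ∈ S.Q b → s = S.w b) →
      ∀ e : ℝ, (e = S.c ∨ e = -S.c) → HypGF S A m a ξ (bs s) σ σ σA s e l0 Γ) ∧
    (∀ b ∈ σ, s ∈ S.Q b → s ≠ S.w b → ∀ σA ⊆ σ.erase b, ∀ e : ℝ,
      (e = S.lo b s ∨ e = S.hi b s) →
      HypGF S A m a ξ (bs s) σ (σ.erase b) σA s e (S.hi b s - S.lo b s) Γ) ∧
    (∀ b ∈ σ, s ∈ S.L b → ∀ σA ⊆ σ, ∀ e : ℝ, (e = S.lo b s ∨ e = S.hi b s) →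
      HypGF S A m a ξ (bs s) σ σ σA s e (S.hi b s - S.lo b s) Γ) ∧
    (∀ σA ⊆ σ, 2 ^ σ.card * (2 + 2 * Real.log (2 / a) * G + 4 * σ.card) *
      (PF S σ s * ZZ a (Lm S (bs s) σ σA s) (Fz S σ σA s) s C Γ * (2 + 2 * D)) ≤
        Real.exp (-(((N0 + (m + 1) : ℕ) : ℝ) ^ (2 * d + 1))) * ∏ b ∈ σ, Real.exp (-(NN S N0 b ^ (2 * d + 1)))) ∧
    2 ^ σ.card * (2 + 2 * Real.log (2 / a) * G + 4 * σ.card) * (PF S σ s * D) ≤
      ∏ b ∈ σ, Real.exp (-(NN S N0 b ^ (2 * d + 1))) := by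
  classical
  have hσ' := hσ
  unfold Adm at hσ'
  obtain ⟨_, hcls, hmeet, hdj⟩ := Finset.mem_filter.1 hσ'
  have hk : σ.card ≤ 2 ^ d := hB.nbr s hs σ hcls hmeet hdj
  set M : ℝ := ((σ.sup (fun b => N0 + S.cls b) : ℕ) : ℝ) with hMdef
  have hNn : ∀ b, 0 ≤ NN S N0 b := fun b => Nat.cast_nonneg _
  have hNM : ∀ b ∈ σ, NN S N0 b ≤ M := by
    intro b hb
    rw [hMdef]; unfold NN
    exact_mod_cast Finset.le_sup (f := fun b => N0 + S.cls b) hb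
  set N : ℝ := ((N0 + (m + 1) : ℕ) : ℝ) with hNdef
  have hN00 : NN S N0 (bs s) = N := by
    rw [hNdef]; unfold NN; rw [hB.bs_cls s hs]
  have hNb : ∀ b ∈ σ, N ≤ NN S N0 b := by
    intro b hb
    have := hcls b hb
    rw [hNdef]; unfold NN
    exact_mod_cast (by omega)
  obtain ⟨b1, hb1, hb1'⟩ := Finset.exists_mem_eq_sup σ hne (fun b => N0 + S.cls b)
  have hM1' : M = NN S N0 b1 := by rw [hMdef]; unfold NN; exact_mod_cast hb1'
  have hN0r : (2 : ℝ) ≤ N := by rw [hNdef]; exact_mod_cast (by omega)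
  have hNleM : N ≤ M := by rw [hM1']; exact hNb b1 hb1
  have hM1 : 1 ≤ M := by linarith
  set T : ℝ := ∑ b ∈ σ, NN S N0 b ^ (2 * d + 1) with hT
  have hMT : M ^ (2 * d + 1) ≤ T := by
    rw [hM1', hT]
    exact Finset.single_le_sum (f := fun b => NN S N0 b ^ (2 * d + 1))
      (fun b _ => pow_nonneg (hNn b) _) hb1
  have hNT : N ^ (2 * d + 1) ≤ T := (pow_le_pow_left₀ (by linarith) hNleM _).trans hMT
  have hReg : ((Reg S (bs s) σ).card : ℝ) ≤ Bd d * C1 * M ^ d :=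
    card_Reg_le5 hC1 (bs s) σ M (by rw [hN00]; exact hNleM) hNM hk hB.card_Q
  have hsReg : s ∈ Reg S (bs s) σ := by
    rw [mem_Reg']
    left
    have := S.w_mem (bs s)
    rwa [hgeo.bs_w s hs] at this
  have hlog := log2a_nonneg ha ha2
  have hlogM : Real.log (2 / a) ≤ C1 * M ^ (4 * d + 4) :=
    hB.log_a.trans (mul_le_mul_of_nonneg_left (pow_le_pow_left₀ (by linarith) hNleM _)
      (by linarith))
  have hM3 : ∀ b ∈ σ, C1 * NN S N0 b ^ (d + 1) ≤ C1 * M ^ (d + 1) := fun b hb =>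
    mul_le_mul_of_nonneg_left (pow_le_pow_left₀ (hNn b) (hNM b hb) _) (by linarith)
  have hCM3 : 0 ≤ C1 * M ^ (d + 1) := by positivity
  set Γ0 : ℝ := Real.exp (4 * C1 * M ^ (d + 1)) with hΓ0def
  have hΓ01 : 1 ≤ Γ0 := Real.one_le_exp (by positivity)
  have hΓ0 : ∀ b ∈ σ, LG.Gb α (CI (S.cls b)) (NI (S.cls b)) (glo (S.cls b)) S.r ≤ Γ0 :=
    fun b hb => (hB.Gb_le b).trans (Real.exp_le_exp.2 (by linarith [hM3 b hb]))
  set Γ : ℝ := LG.GamR α Γ0 (Reg S (bs s) σ).card with hΓdef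
  have hbase : 1 ≤ Γ0 ^ 4 * α ^ 6 := by
    have h1 : 1 ≤ Γ0 ^ 4 := one_le_pow₀ hΓ01
    have h2 : 1 ≤ α ^ 6 := one_le_pow₀ hα
    nlinarith
  have hΓ1 : 1 ≤ Γ := by
    rw [hΓdef]
    unfold LG.GamR
    have : (0 : ℝ) ≤ ((Reg S (bs s) σ).card : ℝ) := Nat.cast_nonneg _
    nlinarith
  have hΓF : ∀ σA ⊆ σ, LG.GamR α Γ0 (Fz S σ σA s).card ≤ Γ := by
    intro σA hA
    rw [hΓdef]
    unfold LG.GamR
    refine mul_le_mul_of_nonneg_left ?_ (by positivity)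
    have : (Fz S σ σA s).card ≤ (Reg S (bs s) σ).card :=
      Finset.card_le_card (Fz_sub S (bs s) σ σA s hA)
    have : ((Fz S σ σA s).card : ℝ) ≤ ((Reg S (bs s) σ).card : ℝ) := by exact_mod_cast this
    linarith
  have hM2 : 1 ≤ M ^ 2 := one_le_pow₀ hM1
  have hM20 : 0 ≤ C1 * M ^ 2 := by positivity
  have hG1 : 1 ≤ Real.exp (C1 * M ^ (d + 1)) := Real.one_le_exp hCM3
  have hD0 : 0 ≤ 16 * C1 * M ^ 2 := by positivity
  -- the final estimates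
  have hPF := PF_le d S N0 C1 Cw hC1 (by
    have h1 := CZ_nonneg (d := d) hC hC1 hα
    have h2 := CP_nonneg (d := d) hC1
    have : 0 ≤ C1 * (CZ d C C1 α + CP d C1 + 2) := by positivity
    linarith) hB.inn_big hB.win_le σ s
  have hCw' : CZ d C C1 α + CP d C1 + 2 ≤ Cw / C1 := by
    rw [le_div_iff₀ (by linarith)]; linarith
  have hCZ := CZ_nonneg (d := d) hC hC1 hα
  have hCP := CP_nonneg (d := d) hC1
  have hT0 : 0 ≤ T := Finset.sum_nonneg fun b _ => pow_nonneg (hNn b) _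
  have hpre := pre_le hd hC1 hM1 hk hlog hlogM hG1 (Real.exp_le_exp.2 (by linarith)) hD0 le_rfl
  have hprod : ∏ b ∈ σ, Real.exp (-(NN S N0 b ^ (2 * d + 1))) = Real.exp (-T) := by
    rw [← Real.exp_sum, Finset.sum_neg_distrib]
  have hpos : 0 ≤ 2 ^ σ.card * (2 + 2 * Real.log (2 / a) * Real.exp (C1 * M ^ (d + 1)) +
      4 * (σ.card : ℝ)) := by
    have : 0 ≤ Real.log (2 / a) * Real.exp (C1 * M ^ (d + 1)) := mul_nonneg hlog (by positivity)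
    have h5 : 0 ≤ 2 + 2 * Real.log (2 / a) * Real.exp (C1 * M ^ (d + 1)) + 4 * (σ.card : ℝ) := by
      nlinarith [Nat.cast_nonneg (α := ℝ) σ.card]
    positivity
  refine ⟨Γ, Real.exp (C1 * M ^ (d + 1)), 16 * C1 * M ^ 2, hΓ1, hG1, hD0, ?_, ?_, ?_, ?_, ?_, ?_, ?_⟩
  · intro b hb V hV
    have h1 := hB.quant.g_ge b V hV
    have h2 := hB.glo_ge b
    have h3 : Real.exp (-(C1 * M ^ (d + 1))) ≤ S.gg A b V := by
      refine le_trans (Real.exp_le_exp.2 ?_) (h2.trans h1)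
      linarith [hM3 b hb]
    calc (S.gg A b V)⁻¹ ≤ (Real.exp (-(C1 * M ^ (d + 1))))⁻¹ := inv_anti₀ (Real.exp_pos _) h3
      _ = Real.exp (C1 * M ^ (d + 1)) := by rw [Real.exp_neg, inv_inv]
  · intro x hx
    have hsQ : s ∈ S.Q (bs s) := by
      have := S.w_mem (bs s)
      rwa [hgeo.bs_w s hs] at this
    have hNM2 : C1 * NN S N0 (bs s) ^ 2 ≤ C1 * M ^ 2 := by
      rw [hN00]
      exact mul_le_mul_of_nonneg_left (pow_le_pow_left₀ (by linarith) hNleM 2) (by linarith)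
    rw [mem_Reg'] at hx
    rcases hx with hx | ⟨b, hb, hx⟩
    · have := hB.diam (bs s) x hx s hsQ
      linarith
    · have h1 := hmeet b hb
      rw [Finset.not_disjoint_iff] at h1
      obtain ⟨y, hy, hy0⟩ := h1
      have h2 := hB.diam b x hx y hy
      have h3 := hB.diam (bs s) y hy0 s hsQ
      have h4 := ff_tri ξ x y s
      have h5 : C1 * NN S N0 b ^ 2 ≤ C1 * M ^ 2 :=
        mul_le_mul_of_nonneg_left (pow_le_pow_left₀ (hNn b) (hNM b hb) 2) (by linarith)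
      linarith
  · intro σA hA hsA hsw e he
    exact LG.hypGF_h1 hS hB.quant hgeo hs (hB.nb s hs) ha ha2 hσ hA hsA hsw he hΓ0 hΓ01
      (hΓF σA hA)
  · intro b hb hsb hsw σA hA e he
    exact LG.hypGF_h2 hS hB.quant hgeo hs (hB.nb s hs) ha ha2 hσ hb hsb hsw hA he hΓ0 hΓ01
      (hΓF σA (hA.trans (Finset.erase_subset _ _)))
  · intro b hb hsb σA hA e he
    exact LG.hypGF_h3 hS hB.quant hgeo hs (hB.nb s hs) ha ha2 hσ hb hsb hA hΓ0 hΓ01 (hΓF σA hA)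
  · intro σA hA
    have hBB : ((BB (Lm S (bs s) σ σA s) (Fz S σ σA s) s).card : ℝ) ≤ Bd d * C1 * M ^ d :=
      le_trans (by exact_mod_cast Finset.card_le_card (BB_sub S (bs s) σ σA s hA hsReg)) hReg
    have hF : ((Fz S σ σA s).card : ℝ) ≤ Bd d * C1 * M ^ d :=
      le_trans (by exact_mod_cast Finset.card_le_card (Fz_sub S (bs s) σ σA s hA)) hReg
    have hL : ((Lm S (bs s) σ σA s).card : ℝ) ≤ Bd d * C1 * M ^ d :=
      le_trans (by exact_mod_cast Finset.card_le_card (Lm_sub S (bs s) σ σA s)) hReg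
    have hzz := zz_le hC hC1 hα hM1 hBB hF hL hReg hΓ01 le_rfl hlog hlogM
    have hZZ : ZZ a (Lm S (bs s) σ σA s) (Fz S σ σA s) s C Γ ≤ Real.exp (CZ d C C1 α * M ^ (2 * d + 1)) := by
      unfold ZZ
      exact hzz
    have hZZ0 : 0 ≤ ZZ a (Lm S (bs s) σ σA s) (Fz S σ σA s) s C Γ := by
      unfold ZZ
      positivity
    obtain ⟨f1, f1'⟩ := mul_le_exp (mul_nonneg hpos (by positivity)) hZZ0 hpre hZZ
    rw [hprod]
    calc 2 ^ σ.card * (2 + 2 * Real.log (2 / a) * Real.exp (C1 * M ^ (d + 1)) + 4 * (σ.card : ℝ)) *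
        (PF S σ s * ZZ a (Lm S (bs s) σ σA s) (Fz S σ σA s) s C Γ * (2 + 2 * (16 * C1 * M ^ 2)))
        = (2 ^ σ.card * (2 + 2 * Real.log (2 / a) * Real.exp (C1 * M ^ (d + 1)) + 4 * (σ.card : ℝ)) *
          (2 + 2 * (16 * C1 * M ^ 2)) * ZZ a (Lm S (bs s) σ σA s) (Fz S σ σA s) s C Γ) *
            PF S σ s := by ring
      _ ≤ Real.exp ((CP d C1 + CZ d C C1 α) * M ^ (2 * d + 1)) * Real.exp (-(Cw / C1 * T)) :=
          mul_le_mul f1 hPF.1 hPF.2 (Real.exp_pos _).le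
      _ = Real.exp ((CP d C1 + CZ d C C1 α) * M ^ (2 * d + 1) + -(Cw / C1 * T)) := (Real.exp_add _ _).symm
      _ ≤ Real.exp (-(N ^ (2 * d + 1)) + -T) := by
          refine Real.exp_le_exp.2 ?_
          have e1 : (CP d C1 + CZ d C C1 α) * M ^ (2 * d + 1) ≤ (CP d C1 + CZ d C C1 α) * T :=
            mul_le_mul_of_nonneg_left hMT (by linarith)
          have e2 : (CZ d C C1 α + CP d C1 + 2) * T ≤ Cw / C1 * T :=
            mul_le_mul_of_nonneg_right hCw' hT0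
          nlinarith
      _ = Real.exp (-(N ^ (2 * d + 1))) * Real.exp (-T) := Real.exp_add _ _
  · rw [hprod]
    have hDD : 16 * C1 * M ^ 2 ≤ 2 + 2 * (16 * C1 * M ^ 2) := by linarith
    calc 2 ^ σ.card * (2 + 2 * Real.log (2 / a) * Real.exp (C1 * M ^ (d + 1)) + 4 * (σ.card : ℝ)) *
        (PF S σ s * (16 * C1 * M ^ 2))
        = (2 ^ σ.card * (2 + 2 * Real.log (2 / a) * Real.exp (C1 * M ^ (d + 1)) +
          4 * (σ.card : ℝ))) * (16 * C1 * M ^ 2) * PF S σ s := by ring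
      _ ≤ (2 ^ σ.card * (2 + 2 * Real.log (2 / a) * Real.exp (C1 * M ^ (d + 1)) +
          4 * (σ.card : ℝ))) * (2 + 2 * (16 * C1 * M ^ 2)) * PF S σ s :=
          mul_le_mul_of_nonneg_right (mul_le_mul_of_nonneg_left hDD hpos) hPF.2
      _ ≤ Real.exp (CP d C1 * M ^ (2 * d + 1)) * Real.exp (-(Cw / C1 * T)) :=
          mul_le_mul hpre hPF.1 hPF.2 (Real.exp_pos _).le
      _ = Real.exp (CP d C1 * M ^ (2 * d + 1) + -(Cw / C1 * T)) := (Real.exp_add _ _).symm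
      _ ≤ Real.exp (-T) := by
          refine Real.exp_le_exp.2 ?_
          have e1 : CP d C1 * M ^ (2 * d + 1) ≤ CP d C1 * T := mul_le_mul_of_nonneg_left hMT hCP
          have e2 : (CZ d C C1 α + CP d C1 + 2) * T ≤ Cw / C1 * T :=
            mul_le_mul_of_nonneg_right hCw' hT0
          have e3 : 0 ≤ CZ d C C1 α * T := mul_nonneg hCZ hT0
          nlinarith

theorem fine_of (hC : 1 ≤ C) (hC1 : 1 ≤ C1) (hα : 1 ≤ α) (hC3 : 0 ≤ C3) (hN0 : 2 ≤ N0)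
    (hS : WO.Good S A) (hgeo : Geo S m ξ good bs j0 j1 l0) (ha : 0 < a) (ha2 : a ≤ 1 / 2)
    (hB : ClsD d S A m a ξ good bs N0 C1 C3 Cw α CI NI glo) (s : ι) (hs : s ∈ good) :
    ∃ Γ gm : ℝ, 1 ≤ Γ ∧ 0 < gm ∧
    (∀ e : ℝ, (e = S.c ∨ e = -S.c) → HypGF S A m a ξ (bs s) ∅ ∅ ∅ s e l0 Γ) ∧
    (∀ V, S.comp (bs s) V → gm ≤ S.gg A (bs s) V) ∧
    (∀ y ∈ S.Q (bs s), ff ξ s y ≤ C1 * ((N0 + (m + 1) : ℕ) : ℝ) ^ 2) ∧
    ZZ a (Lm S (bs s) ∅ ∅ s) ∅ s C Γ ≤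
      Real.exp (CZ d C C1 α * ((N0 + (m + 1) : ℕ) : ℝ) ^ (2 * d + 1)) ∧
    WG S (bs s) * (S.κ * gm ^ 2)⁻¹ ≤
      (S.κ)⁻¹ * Real.exp ((3 * C3 * C1 + 2 * C1) * ((N0 + (m + 1) : ℕ) : ℝ) ^ (2 * d + 1)) := by
  classical
  set N : ℝ := ((N0 + (m + 1) : ℕ) : ℝ) with hNdef
  have hN00 : NN S N0 (bs s) = N := by
    rw [hNdef]; unfold NN; rw [hB.bs_cls s hs]
  have hN0r : (2 : ℝ) ≤ N := by rw [hNdef]; exact_mod_cast (by omega)
  have hN1 : 1 ≤ N := by linarith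
  have hsQ : s ∈ S.Q (bs s) := by
    have := S.w_mem (bs s)
    rwa [hgeo.bs_w s hs] at this
  have hα6 : 1 ≤ α ^ 6 := one_le_pow₀ hα
  have hlog := log2a_nonneg ha ha2
  have hReg : ((Reg S (bs s) ∅).card : ℝ) ≤ Bd d * C1 * N ^ d :=
    card_Reg_le5 hC1 (bs s) ∅ N (le_of_eq hN00) (by simp) (by simp) hB.card_Q
  have hsReg : s ∈ Reg S (bs s) ∅ := by rw [mem_Reg']; exact Or.inl hsQ
  refine ⟨108 * α ^ 6, glo (S.cls (bs s)), by linarith, hB.quant.glo_pos _, ?_, ?_, ?_, ?_, ?_⟩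
  · intro e _
    exact LG.hypGF_empty hS hB.quant hgeo hs (hB.nb s hs) ha ha2 le_rfl
  · exact fun V hV => hB.quant.g_ge _ V hV
  · intro y hy
    have := hB.diam (bs s) s hsQ y hy
    rwa [hN00] at this
  · have hBB : ((BB (Lm S (bs s) ∅ ∅ s) ∅ s).card : ℝ) ≤ Bd d * C1 * N ^ d := by
      refine le_trans ?_ hReg
      have h1 : BB (Lm S (bs s) ∅ ∅ s) ∅ s ⊆ Reg S (bs s) ∅ := by
        intro y hy
        unfold BB at hy
        rw [Finset.mem_insert, Finset.union_empty] at hy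
        rcases hy with h | h
        · exact h ▸ hsReg
        · exact Lm_sub S (bs s) ∅ ∅ s h
      exact_mod_cast Finset.card_le_card h1
    have hL : ((Lm S (bs s) ∅ ∅ s).card : ℝ) ≤ Bd d * C1 * N ^ d :=
      le_trans (by exact_mod_cast Finset.card_le_card (Lm_sub S (bs s) ∅ ∅ s)) hReg
    have h0 : ((0 : ℕ) : ℝ) ≤ Bd d * C1 * N ^ d := by
      have := Bd_pos d
      rw [Nat.cast_zero]; positivity
    have hzz := zz_le (Γ0 := 1) hC hC1 hα hN1 hBB h0 hL h0 le_rfl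
      (Real.one_le_exp (by positivity)) hlog hB.log_a
    unfold ZZ
    rw [Finset.card_empty]
    simpa using hzz
  · have hWG := WG_le d S N0 C1 C3 hC3 (bs s) (hB.card_Q (bs s)) (hB.win_ge (bs s))
    rw [hN00] at hWG
    have hg := hB.glo_ge (bs s)
    rw [hN00] at hg
    have hgp := hB.quant.glo_pos (S.cls (bs s))
    have hκ := S.κ_pos
    have h1 : (S.κ * glo (S.cls (bs s)) ^ 2)⁻¹ ≤ (S.κ)⁻¹ * Real.exp (2 * C1 * N ^ (2 * d + 1)) := by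
      rw [mul_inv]
      refine mul_le_mul_of_nonneg_left ?_ (by positivity)
      have h2 : Real.exp (-(C1 * N ^ (d + 1))) ^ 2 ≤ glo (S.cls (bs s)) ^ 2 :=
        pow_le_pow_left₀ (Real.exp_pos _).le hg 2
      refine (inv_anti₀ (by positivity) h2).trans ?_
      rw [← Real.exp_nat_mul, ← Real.exp_neg]
      refine Real.exp_le_exp.2 ?_
      push_cast
      have h3 : N ^ (d + 1) ≤ N ^ (2 * d + 1) := pow_le_pow_right₀ hN1 (by omega)
      have h4 : C1 * N ^ (d + 1) ≤ C1 * N ^ (2 * d + 1) := mul_le_mul_of_nonneg_left h3 (by linarith)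
      linarith
    calc WG S (bs s) * (S.κ * glo (S.cls (bs s)) ^ 2)⁻¹ ≤
        Real.exp (3 * C3 * C1 * N ^ (2 * d + 1)) * ((S.κ)⁻¹ * Real.exp (2 * C1 * N ^ (2 * d + 1))) :=
          mul_le_mul hWG.1 h1 (by positivity) (Real.exp_pos _).le
      _ = (S.κ)⁻¹ * (Real.exp (3 * C3 * C1 * N ^ (2 * d + 1)) * Real.exp (2 * C1 * N ^ (2 * d + 1))) := by ring
      _ = (S.κ)⁻¹ * Real.exp ((3 * C3 * C1 + 2 * C1) * N ^ (2 * d + 1)) := by
          rw [← Real.exp_add]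
          congr 2
          ring

/-- **the numerical hypotheses of the rate inequality** -/
theorem num_of (hd : 2 ≤ d) (hC : 1 ≤ C) (hC1 : 1 ≤ C1) (hα : 1 ≤ α) (hC3 : 0 ≤ C3)
    (hCw : C1 * (CZ d C C1 α + CP d C1 + 2) ≤ Cw) (hN0 : 2 ≤ N0) (hN1 : 3 * C1 ≤ N0)
    (hS : WO.Good S A) (hgeo : Geo S m ξ good bs j0 j1 l0) (ha : 0 < a) (ha2 : a ≤ 1 / 2)
    (hB : ClsD d S A m a ξ good bs N0 C1 C3 Cw α CI NI glo) :
    Num S A m a ξ good bs l0 C (Real.exp (CZ d C C1 α * ((N0 + (m + 1) : ℕ) : ℝ) ^ (2 * d + 1)))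
      ((S.κ)⁻¹ * Real.exp ((3 * C3 * C1 + 2 * C1) * ((N0 + (m + 1) : ℕ) : ℝ) ^ (2 * d + 1)))
      (C1 * ((N0 + (m + 1) : ℕ) : ℝ) ^ 2) (Real.exp (-(((N0 + (m + 1) : ℕ) : ℝ) ^ (2 * d + 1))))
      (C1 * ((N0 + (m + 1) : ℕ) : ℝ) ^ d) (1 / 2) (1 / 2)
      (fun b => Real.exp (-(NN S N0 b ^ (2 * d + 1)))) := by
  classical
  have hκ := S.κ_pos
  refine ⟨by positivity, by positivity, by positivity, by positivity, by positivity,
    by norm_num, by norm_num, fun b => by positivity, ?_, ?_, ?_, le_rfl, ?_, ?_⟩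
  · exact fun s hs => fine_of hC hC1 hα hC3 hN0 hS hgeo ha ha2 hB s hs
  · exact fun s hs σ hσ hne => crude_of hd hC hC1 hα hCw hN0 hS hgeo ha ha2 hB s hs σ hσ hne
  · intro s hs
    have := S1_of (m := m) hd hC1 hN0 hN1 (bs s) (hB.bs_cls s hs) hB.card_Q hB.count
    unfold NB at this
    convert this
  · intro y
    exact S2_of hgeo.bs_w hB.bs_cls hB.count y
  · intro y
    have := S3_of hd hC1 hN0 hN1 hgeo.bs_w hB.bs_cls hB.card_Q hB.count y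
    convert this

end main

end Pool.Agent.Lib.MP_562b47_mp.CD
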