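import Pool.Agent.Lib.MP_562b47_mp.CD.Std
import Pool.Agent.Lib.MP_562b47_mp.CD.NumOf
import Pool.Agent.Lib.MP_562b47_mp.RD.InstE

/-!
MP_562b47, every dimension `d`, the chain: the numbers of Lemma H' for the instance (`ClsD`,
`LH.Num`).
-/

open Finset MeasureTheory

set_option linter.unusedSectionVars false

namespace Pool.Agent.Lib.MP_562b47_mp.CD

open Pool.Agent.Lib.MP_562b47_mp.RD Pool.Agent.Lib.MP_562b47_mp.WO Pool.Agent.Lib.MP_562b47_mp
  Pool.Agent.Lib.MP_562b47_mp.GD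

variable {d : ℕ} {c : ℝ}

/-- a constant is at most `exp (K N ^ n)` -/
theorem le_exp_pw {X : ℝ} (hX : 0 < X) {K : ℝ} (hK : |Real.log X| ≤ K) {N : ℕ} (hN : 1 ≤ N)
    (n : ℕ) : X ≤ Real.exp (K * (N : ℝ) ^ n) := by
  have h1 : (1 : ℝ) ≤ N := by exact_mod_cast hN
  have h2 : (1 : ℝ) ≤ (N : ℝ) ^ n := one_le_pow₀ h1
  have h3 : Real.log X ≤ K * (N : ℝ) ^ n := by
    have h4 := le_abs_self (Real.log X)
    have h5 := abs_nonneg (Real.log X)
    nlinarith
  calc X = Real.exp (Real.log X) := (Real.exp_log hX).symm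
    _ ≤ _ := Real.exp_le_exp.mpr h3

/-- the constants which depend only on the gadget -/
structure Cst1 (G : Gd d c) (C1 : ℝ) : Prop where
  ge : 2 + 2 ^ pe d ≤ C1
  nQ : ∀ N : ℕ, 1 ≤ N → G.nQ N ≤ C1 * (N : ℝ) ^ d
  b2 : d * (2 * (G.b : ℝ)) ^ 2 ≤ C1
  Gb : ∀ N : ℕ, 1 ≤ N →
    LG.Gb G.al (G.Rb N) (G.nQ N) (G.glo N) G.r ≤ Real.exp (C1 * (N : ℝ) ^ (d + 1))
  glo : ∀ N : ℕ, 1 ≤ N → Real.exp (-(C1 * (N : ℝ) ^ (d + 1))) ≤ G.glo N

theorem exists_Cst1 (hc : 0 < c) (G : Gd d c) : ∃ C1, Cst1 G C1 := by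
  obtain ⟨K, hK0, hK⟩ := G.exists_K hc
  have hr := G.r_pos
  have hb : (3 : ℝ) ≤ G.b := by exact_mod_cast G.hb
  have hmin : 0 < min G.r 1 := lt_min hr one_pos
  set X : ℝ := 75 / min G.r 1 with hX
  have hXp : 0 < X := by positivity
  have a1 := abs_nonneg (Real.log X)
  set C1 : ℝ := (2 + 2 ^ pe d) + (2 * (G.b : ℝ) + 1) ^ d + d * (2 * (G.b : ℝ)) ^ 2 +
    (13 * K + |Real.log X|) with hC1
  have hbs : 0 ≤ (2 * (G.b : ℝ) + 1) ^ d := by positivity
  have hbt : 0 ≤ d * (2 * (G.b : ℝ)) ^ 2 := by positivity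
  have h2s : (0 : ℝ) ≤ 2 ^ pe d := by positivity
  have h13 : 0 ≤ 13 * K := by linarith
  refine ⟨C1, by rw [hC1]; linarith, fun N hN => ?_, by rw [hC1]; linarith, fun N hN => ?_,
    fun N hN => ?_⟩
  · -- nQ
    have hN1 : (1 : ℝ) ≤ N := by exact_mod_cast hN
    have e1 : G.nQ N ≤ (2 * (G.b : ℝ) + 1) ^ d * (N : ℝ) ^ d := by
      unfold Gd.nQ
      rw [← mul_pow]
      have : 2 * (G.b : ℝ) * N + 1 ≤ (2 * (G.b : ℝ) + 1) * N := by nlinarith
      have h0 : 0 ≤ 2 * (G.b : ℝ) * N + 1 := by positivity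
      gcongr
    refine e1.trans (mul_le_mul_of_nonneg_right ?_ (by positivity))
    rw [hC1]; linarith
  · obtain ⟨k1, k2, k3, k4, k5, k6⟩ := hK N hN
    have hN1 : (1 : ℝ) ≤ N := by exact_mod_cast hN
    have hN3 : (1 : ℝ) ≤ (N : ℝ) ^ (d + 1) := one_le_pow₀ hN1
    set e := Real.exp (K * (N : ℝ) ^ (d + 1)) with he
    have he0 : 0 < e := Real.exp_pos _
    have he1 : 1 ≤ e := Real.one_le_exp (by positivity)
    have hgl := G.gl_pos N
    have hglo := G.glo_pos N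
    have hn0 := G.nQ_nonneg N
    have hR0 := G.Rb_nonneg N
    have hal0 : 0 ≤ G.al := by
      unfold Gd.al
      have := abs_nonneg G.v
      positivity
    have h1 : e⁻¹ ≤ G.glo N := by
      unfold Gd.glo
      refine le_min ?_ ?_
      · exact inv_le_one_of_one_le₀ he1
      · rw [inv_le_comm₀ he0 hgl, ← one_div]
        exact k6
    have h2 : LG.Gb G.al (G.Rb N) (G.nQ N) (G.glo N) G.r ≤ X * e ^ 13 := by
      unfold LG.Gb
      rw [div_le_iff₀ (by positivity)]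
      calc 75 * G.al ^ 2 * (G.Rb N * G.nQ N) ^ 5 ≤ 75 * e ^ 2 * (e * e) ^ 5 := by gcongr
        _ = X * e ^ 13 * (e⁻¹ * min G.r 1) := by
            rw [hX]
            field_simp
        _ ≤ X * e ^ 13 * (G.glo N * min G.r 1) := by gcongr
    refine h2.trans ?_
    have h3 : X ≤ Real.exp (|Real.log X| * (N : ℝ) ^ (d + 1)) := le_exp_pw hXp le_rfl hN _
    have h4 : e ^ 13 = Real.exp (13 * K * (N : ℝ) ^ (d + 1)) := by
      rw [he, ← Real.exp_nat_mul]; push_cast; ring_nf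
    calc X * e ^ 13 ≤ Real.exp (|Real.log X| * (N : ℝ) ^ (d + 1)) *
          Real.exp (13 * K * (N : ℝ) ^ (d + 1)) := by
          rw [h4]; gcongr
      _ = Real.exp ((13 * K + |Real.log X|) * (N : ℝ) ^ (d + 1)) := by
          rw [← Real.exp_add]; ring_nf
      _ ≤ _ := by
          apply Real.exp_le_exp.mpr
          refine mul_le_mul_of_nonneg_right ?_ (by positivity)
          rw [hC1]; linarith
  · obtain ⟨k1, k2, k3, k4, k5, k6⟩ := hK N hN
    have hgl := G.gl_pos N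
    have hN0 : (0 : ℝ) ≤ (N : ℝ) ^ (d + 1) := by positivity
    have hCK : K ≤ C1 := by rw [hC1]; linarith
    have h1 : Real.exp (K * (N : ℝ) ^ (d + 1)) ≤ Real.exp (C1 * (N : ℝ) ^ (d + 1)) :=
      Real.exp_le_exp.mpr (mul_le_mul_of_nonneg_right hCK hN0)
    unfold Gd.glo
    refine le_min ?_ ?_
    · apply Real.exp_le_one_iff.mpr
      have : 0 ≤ C1 * (N : ℝ) ^ (d + 1) := by
        have : 0 ≤ C1 := hK0.trans hCK
        positivity
      linarith
    · rw [Real.exp_neg, inv_le_comm₀ (Real.exp_pos _) hgl, ← one_div]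
      exact k6.trans h1

/-- the backgrounds are small enough for `LG.Quant` -/
theorem exists_lg (hc : 0 < c) (G : Gd d c) : ∃ N1 : ℕ, 1 ≤ N1 ∧ ∀ N : ℕ, N1 ≤ N → ∀ a : ℝ, 0 ≤ a →
    a ≤ ev (pe d) N → 8 * G.al ^ 2 * (G.Rb N * G.nQ N) ^ 3 * a ≤ min G.r 1 := by
  obtain ⟨K, hK0, hK⟩ := G.exists_K hc
  have hr := G.r_pos
  obtain ⟨N1, h1, h2⟩ := BR.exp_beats (8 + 8 * K) 1 one_pos (k := d + 1) (l := pe d)
    (by unfold pe; omega) (ε := min G.r 1) (lt_min hr one_pos)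
  refine ⟨N1, h1, fun N hN a ha haN => ?_⟩
  have hN1 : 1 ≤ N := h1.trans hN
  obtain ⟨k1, k2, k3, k4, k5, k6⟩ := hK N hN1
  have h3 := h2 N hN
  rw [one_mul] at h3
  set e := Real.exp (K * (N : ℝ) ^ (d + 1)) with he
  have he0 : 0 < e := Real.exp_pos _
  have hn0 := G.nQ_nonneg N
  have hR0 := G.Rb_nonneg N
  have hal0 : 0 ≤ G.al := by
    unfold Gd.al
    have := abs_nonneg G.v
    positivity
  have hev : ev (pe d) N = Real.exp (-((N : ℝ) ^ pe d)) := rfl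
  refine le_trans ?_ h3
  have e1 : e ^ 8 = Real.exp (8 * K * (N : ℝ) ^ (d + 1)) := by
    rw [he, ← Real.exp_nat_mul]; push_cast; ring_nf
  calc 8 * G.al ^ 2 * (G.Rb N * G.nQ N) ^ 3 * a
      ≤ 8 * e ^ 2 * (e * e) ^ 3 * Real.exp (-((N : ℝ) ^ pe d)) := by
        rw [← hev]
        gcongr
    _ = 8 * e ^ 8 * Real.exp (-((N : ℝ) ^ pe d)) := by ring
    _ ≤ (8 + 8 * K) * Real.exp ((8 + 8 * K) * (N : ℝ) ^ (d + 1)) *
          Real.exp (-((N : ℝ) ^ pe d)) := by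
        rw [e1]
        have : (0 : ℝ) ≤ (N : ℝ) ^ (d + 1) := by positivity
        gcongr
        · linarith
        · linarith

section inst

variable {ι : Type} [Fintype ι] [DecidableEq ι] (P : Par d c ι)

theorem NN_eq (q : P.Blk) : NN P.sys P.N0 q = (P.num q : ℝ) := rfl

theorem diam_QQ (q : P.Blk) {x y : ι} (hx : x ∈ P.sys.Q q) (hy : y ∈ P.sys.Q q) :
    AL.ff P.xi x y ≤ d * (2 * (P.G.b : ℝ)) ^ 2 * (P.num q : ℝ) ^ 2 := by
  refine (P.ff_le q hx hy).trans (le_of_eq ?_)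
  ring

theorem count_le (j : ℕ) (y : ι) :
    ((univ.filter fun q : P.Blk => P.sys.cls q = j ∧ y ∈ P.sys.Q q).card : ℝ) ≤
      P.G.nQ (P.N0 + j) := by
  have hm : 0 ≤ P.G.b * ((P.N0 + j : ℕ) : ℤ) := by
    have := P.G.hb
    positivity
  have h1 : (univ.filter fun q : P.Blk => P.sys.cls q = j ∧ y ∈ P.sys.Q q).card ≤
      (bq d (P.G.b * ((P.N0 + j : ℕ) : ℤ))).card := by
    refine card_le_card_of_injOn (fun q => P.co q y) ?_ ?_
    · intro q hq
      obtain ⟨h2, h3⟩ := (mem_filter.mp hq).2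
      have h4 := P.mem_Q.mp h3
      have h5 : P.rad q = P.G.b * ((P.N0 + j : ℕ) : ℤ) := by
        unfold Par.rad Par.num
        have : P.cls q = j := h2
        rw [this]
      rw [h5] at h4
      exact h4
    · intro q hq q' hq' h
      have h2 : P.cls q = j := ((mem_filter.mp hq).2).1
      have h3 : P.cls q' = j := ((mem_filter.mp hq').2).1
      have h4 : P.pos (P.ctr q) = P.pos (P.ctr q') := rel_inj h
      exact P.blk_ext (h2.trans h3.symm) (P.inj h4)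
  have h2 : (((bq d (P.G.b * ((P.N0 + j : ℕ) : ℤ))).card : ℕ) : ℝ) = P.G.nQ (P.N0 + j) := by
    rw [Par.card_bq hm]
    unfold Gd.nQ
    push_cast
    ring
  rw [← h2]
  exact_mod_cast h1

/-- `log (2 / a')` -/
theorem log_le (s : ℕ) {N : ℕ} (hN : 1 ≤ N) {a' : ℝ} (ha : ev s (N + 1) < a') :
    Real.log (2 / a') ≤ (2 + 2 ^ s) * (N : ℝ) ^ s := by
  have h0 := ev_pos s (N + 1)
  have ha0 : 0 < a' := h0.trans ha
  have hN1 : (1 : ℝ) ≤ N := by exact_mod_cast hN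
  have h1 : Real.log (2 / a') ≤ Real.log (2 / ev s (N + 1)) := by
    apply Real.log_le_log (by positivity)
    gcongr
  have h2 : Real.log (2 / ev s (N + 1)) = Real.log 2 + ((N : ℝ) + 1) ^ s := by
    rw [Real.log_div (by norm_num) h0.ne', log_ev]
    push_cast
    ring
  have h3 : ((N : ℝ) + 1) ^ s ≤ (2 * (N : ℝ)) ^ s := by
    have : (N : ℝ) + 1 ≤ 2 * N := by linarith
    gcongr
  have h4 : (2 * (N : ℝ)) ^ s = 2 ^ s * (N : ℝ) ^ s := mul_pow _ _ _
  have h5 : Real.log 2 ≤ 1 := by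
    have := Real.log_two_lt_d9
    linarith
  have h6 : (1 : ℝ) ≤ (N : ℝ) ^ s := one_le_pow₀ hN1
  linarith

theorem ev_half {s : ℕ} {N : ℕ} (hN : 1 ≤ N) : ev s N ≤ 1 / 2 := by
  have hN1 : (1 : ℝ) ≤ N := by exact_mod_cast hN
  have h6 : (1 : ℝ) ≤ (N : ℝ) ^ s := one_le_pow₀ hN1
  have h7 : Real.exp (-1) ≤ 1 / 2 := by
    rw [Real.exp_neg, one_div]
    apply inv_anti₀ (by norm_num)
    have := Real.add_one_le_exp (1 : ℝ)
    linarith
  exact le_trans (Real.exp_le_exp.mpr (by linarith)) h7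

/-- `log` of the window lengths -/
noncomputable def c30 (G : Gd d c) : ℝ := 6 * KK d / G.r

/-- the constants by class for the instance -/
theorem clsB_inst {C1 Cwr : ℝ} (hC1 : Cst1 P.G C1) (hN0 : 2 ≤ P.N0)
    (hCw : Cwr + |Real.log c| ≤ P.Cw) {a a' : ℝ} (hP : Std P a)
    (hlg : ∀ N : ℕ, P.N0 ≤ N → ∀ a : ℝ, 0 ≤ a → a ≤ ev (pe d) N →
      8 * P.G.al ^ 2 * (P.G.Rb N * P.G.nQ N) ^ 3 * a ≤ min P.G.r 1)
    [Nonempty P.Blk] {m : ℕ} (hm : m < P.M) (ha' : P.et (m + 1) < a') :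
    ClsD d P.sys P.A m a' P.xi (P.gds m) (P.bs m) P.N0 C1
      (P.Cw + |Real.log (c30 P.G)| + 2) Cwr P.G.al (fun j => P.G.Rb (P.N0 + j))
      (fun j => P.G.nQ (P.N0 + j)) (fun j => P.G.glo (P.N0 + j)) := by
  have hd := P.G.hd
  have hc := P.c_pos
  have hr := P.G.r_pos
  have hKK : (1 : ℝ) ≤ KK d := by exact_mod_cast KK_pos d
  have h30 : 0 < c30 P.G := by unfold c30; positivity
  have hC12 : 2 ≤ C1 := by
    have h1 := hC1.ge
    have h2 : (0 : ℝ) ≤ 2 ^ pe d := by positivity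
    linarith
  have hnum : ∀ q : P.Blk, 2 ≤ P.num q := fun q => hN0.trans (P.num_ge q)
  have hnumr : ∀ q : P.Blk, (2 : ℝ) ≤ P.num q := fun q => by exact_mod_cast hnum q
  have hn1 : ∀ q : P.Blk, 1 ≤ P.num q := fun q => P.one_le_num q
  have hcls : ∀ q : P.Blk, P.N0 + P.sys.cls q = P.num q := fun q => rfl
  have hCwpos : 0 ≤ P.Cw := by linarith [P.G.C_ge, P.Cw_ge]
  refine ⟨P.lgQuant fun j hj => hlg _ (Nat.le_add_right _ _) _ (P.et_pos j).le (hP.et_le_ev j),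
    fun s _ => P.lgNb hN0 _, fun s hs => (P.bs_spec hm hs).1, ?_, ?_, ?_, ?_, ?_, ?_, ?_, ?_, ?_,
    ?_⟩
  · intro q
    exact (P.card_Q_le q).trans (hC1.nQ _ (hn1 q))
  · intro q
    rw [NN_eq]
    have h1 := P.card_inn_ge q
    have h2 : ((P.num q : ℝ)) ^ d ≤ ((P.sys.inn q).card : ℝ) := by exact_mod_cast h1
    have h3 := hnumr q
    have h5 : (4 : ℝ) ≤ (P.num q : ℝ) ^ d := by
      calc (4 : ℝ) = 2 ^ 2 := by norm_num
        _ ≤ (P.num q : ℝ) ^ 2 := by gcongr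
        _ ≤ (P.num q : ℝ) ^ d := pow_le_pow_right₀ (by linarith) hd
    nlinarith
  · intro q x hx
    rw [P.win_inn (P.mem_inn'.mp hx), NN_eq]
    have hsc : P.sys.c = c := rfl
    rw [hsc]
    have hN3 : (1 : ℝ) ≤ (P.num q : ℝ) ^ (d + 1) := one_le_pow₀ (by linarith [hnumr q])
    have h1 : 1 / c ≤ Real.exp (|Real.log c| * (P.num q : ℝ) ^ (d + 1)) := by
      apply le_exp_pw (by positivity) _ (hn1 q)
      rw [one_div, Real.log_inv, abs_neg]
    calc 2 * Real.exp (-(P.Cw * (P.num q : ℝ) ^ (d + 1))) / (2 * c)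
        = Real.exp (-(P.Cw * (P.num q : ℝ) ^ (d + 1))) * (1 / c) := by field_simp
      _ ≤ Real.exp (-(P.Cw * (P.num q : ℝ) ^ (d + 1))) *
          Real.exp (|Real.log c| * (P.num q : ℝ) ^ (d + 1)) := by
          gcongr
      _ = Real.exp (-((P.Cw - |Real.log c|) * (P.num q : ℝ) ^ (d + 1))) := by
          rw [← Real.exp_add]; ring_nf
      _ ≤ _ := by
          apply Real.exp_le_exp.mpr
          have : Cwr ≤ P.Cw - |Real.log c| := by linarith
          have := mul_le_mul_of_nonneg_right this (by positivity : 0 ≤ (P.num q : ℝ) ^ (d + 1))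
          linarith
  · intro q x hx hxw
    rw [NN_eq]
    have hN1 : (1 : ℝ) ≤ P.num q := by linarith [hnumr q]
    have hN3 : (1 : ℝ) ≤ (P.num q : ℝ) ^ (d + 1) := one_le_pow₀ hN1
    have a1 := abs_nonneg (Real.log (c30 P.G))
    by_cases h : x ∈ P.sys.L q
    · rw [P.win_prt (P.mem_L.mp h)]
      have h2 : 1 / lw (KK d) P.G.r (P.num q) ≤
          Real.exp ((|Real.log (c30 P.G)| + 2) * (P.num q : ℝ) ^ (d + 1)) := by
        have h3 : 1 / lw (KK d) P.G.r (P.num q) =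
            KK d * (((P.num q : ℝ) + 1) * (P.num q + 2)) / P.G.r := by
          unfold lw
          field_simp
        have h4 : KK d * (((P.num q : ℝ) + 1) * (P.num q + 2)) / P.G.r ≤
            c30 P.G * (P.num q : ℝ) ^ 2 := by
          unfold c30
          rw [div_mul_eq_mul_div]
          apply div_le_div_of_nonneg_right _ hr.le
          have : ((P.num q : ℝ) + 1) * (P.num q + 2) ≤ 6 * (P.num q : ℝ) ^ 2 := by nlinarith
          nlinarith
        have h5 : (P.num q : ℝ) ≤ Real.exp ((P.num q : ℝ) ^ (d + 1)) := by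
          have h6 := Real.add_one_le_exp ((P.num q : ℝ) ^ (d + 1))
          have h7 : (P.num q : ℝ) ≤ (P.num q : ℝ) ^ (d + 1) := le_self_pow₀ hN1 (by omega)
          linarith
        have h6 : c30 P.G ≤ Real.exp (|Real.log (c30 P.G)| * (P.num q : ℝ) ^ (d + 1)) :=
          le_exp_pw h30 le_rfl (hn1 q) _
        rw [h3]
        calc _ ≤ c30 P.G * (P.num q : ℝ) ^ 2 := h4
          _ ≤ Real.exp (|Real.log (c30 P.G)| * (P.num q : ℝ) ^ (d + 1)) *
              Real.exp ((P.num q : ℝ) ^ (d + 1)) ^ 2 := by gcongr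
          _ = _ := by
              rw [← Real.exp_nat_mul, ← Real.exp_add]
              push_cast
              ring_nf
      have hlw := lw_pos (KK_pos d) hr (P.num q)
      have h8 : Real.exp (-((|Real.log (c30 P.G)| + 2) * (P.num q : ℝ) ^ (d + 1))) ≤
          lw (KK d) P.G.r (P.num q) := by
        rw [Real.exp_neg, inv_le_comm₀ (Real.exp_pos _) hlw, ← one_div]
        exact h2
      refine le_trans (Real.exp_le_exp.mpr ?_) h8
      have : (|Real.log (c30 P.G)| + 2) * (P.num q : ℝ) ^ (d + 1) ≤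
          (P.Cw + |Real.log (c30 P.G)| + 2) * (P.num q : ℝ) ^ (d + 1) :=
        mul_le_mul_of_nonneg_right (by linarith) (by positivity)
      linarith
    · have hi : x ∈ P.sys.inn q := P.sys.mem_inn.mpr ⟨hxw, hx, h⟩
      rw [P.win_inn (P.mem_inn'.mp hi)]
      have h9 : Real.exp (-((P.Cw + |Real.log (c30 P.G)| + 2) * (P.num q : ℝ) ^ (d + 1))) ≤
          Real.exp (-(P.Cw * (P.num q : ℝ) ^ (d + 1))) := by
        apply Real.exp_le_exp.mpr
        have : P.Cw * (P.num q : ℝ) ^ (d + 1) ≤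
            (P.Cw + |Real.log (c30 P.G)| + 2) * (P.num q : ℝ) ^ (d + 1) :=
          mul_le_mul_of_nonneg_right (by linarith) (by positivity)
        linarith
      have h10 := Real.exp_pos (-(P.Cw * (P.num q : ℝ) ^ (d + 1)))
      linarith
  · intro q x hx y hy
    rw [NN_eq]
    exact (diam_QQ P q hx hy).trans (mul_le_mul_of_nonneg_right hC1.b2 (by positivity))
  · intro q
    rw [NN_eq]
    exact hC1.Gb (P.num q) (hn1 q)
  · intro q
    rw [NN_eq]
    exact hC1.glo (P.num q) (hn1 q)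
  · intro j y
    exact (count_le P j y).trans (hC1.nQ _ (by omega))
  · have h1 : ev (pe d) (P.N0 + (m + 1) + 1) < a' := (hP.et_ge (by omega)).trans_lt ha'
    refine (log_le (pe d) (by omega) h1).trans ?_
    exact mul_le_mul_of_nonneg_right hC1.ge (by positivity)
  · intro s hs σ h1 h2 h3
    refine P.g3 (q := P.bs m s) (fun q' hq' => ?_) (fun q' hq' => ?_) h3
    · have h4 : m < P.cls q' := h1 q' hq'
      rw [(P.bs_spec hm hs).1]
      omega
    · intro hdj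
      exact h2 q' hq' hdj.symm

end inst

/-- NUM for the instance -/
theorem num_inst_pos (hc : 0 < c) (G : Gd d c) (C : ℝ) (hC : 1 ≤ C) : ∃ Cw : ℝ, 1 ≤ Cw ∧ G.C ≤ Cw ∧
    ∃ (N1 : ℕ) (Cz : ℝ), 1 ≤ N1 ∧ 1 ≤ Cz ∧
    ∀ (ι : Type) [Fintype ι] [DecidableEq ι] (P : Par d c ι) [Nonempty P.Blk] (a : ℝ), P.G = G →
      P.Cw = Cw → N1 ≤ P.N0 → Std P a → ∀ m < P.M, ∀ a', P.et (m + 1) < a' → a' < P.et m →
        ∃ (Z0 W0 D0 K2 Nn qb qc : ℝ) (q : P.Blk → ℝ),
          LH.Num P.sys P.A m a' P.xi (P.gds m) (P.bs m) (G.r / 2) C Z0 W0 D0 K2 Nn qb qc q ∧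
          Z0 ≤ Real.exp (Cz * ((P.N0 : ℝ) + m + 1) ^ (2 * d + 1)) ∧
          W0 ≤ Real.exp (Cz * ((P.N0 : ℝ) + m + 1) ^ (2 * d + 1)) ∧
          D0 ≤ Cz * ((P.N0 : ℝ) + m + 1) ^ 2 ∧
          Nn ≤ Cz * ((P.N0 : ℝ) + m + 1) ^ d ∧
          K2 * (2 * Nn * qb + 2 * qc) ≤ Cz * Real.exp (-((P.N0 : ℝ) + m + 1)) := by
  have hd := G.hd
  obtain ⟨C1, hC1⟩ := exists_Cst1 hc G
  have hC1' : 2 ≤ C1 := by
    have h1 := hC1.ge
    have h2 : (0 : ℝ) ≤ 2 ^ pe d := by positivity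
    linarith
  have hal : 1 ≤ G.al := by
    unfold Gd.al
    have := abs_nonneg G.v
    have h2 : (2 : ℝ) ≤ d := by exact_mod_cast hd
    linarith
  set Cwr : ℝ := C1 * (CZ d C C1 G.al + CP d C1 + 2) with hCwr
  have hCZ := CZ_nonneg (d := d) hC (by linarith : 1 ≤ C1) hal
  have hCP := CP_nonneg (d := d) (by linarith : 1 ≤ C1)
  have hCwr0 : 0 ≤ Cwr := by positivity
  have al := abs_nonneg (Real.log c)
  have hGC := G.C_ge
  set Cw : ℝ := Cwr + |Real.log c| + G.C with hCwd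
  set C3 : ℝ := Cw + |Real.log (c30 G)| + 2 with hC3
  have hC3' : 0 ≤ C3 := by
    have := abs_nonneg (Real.log (c30 G))
    rw [hC3]; linarith
  obtain ⟨n1, hn1, hlg⟩ := exists_lg hc G
  obtain ⟨n2, hn2, hgood⟩ := G.exists_N1
  obtain ⟨n3, hn3⟩ := exists_nat_ge (3 * C1)
  set Cz : ℝ := CZ d C C1 G.al + (3 * C3 * C1 + 2 * C1 + |Real.log (4 * c)|) + (C1 + 1) with hCz
  have h4c := abs_nonneg (Real.log (4 * c))
  refine ⟨Cw, by rw [hCwd]; linarith, by rw [hCwd]; linarith, max (max n1 n2) (max n3 2), Cz,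
    le_trans (by norm_num) (le_trans (le_max_right n3 2) (le_max_right _ _)), ?_, ?_⟩
  · rw [hCz]
    have : 0 ≤ 3 * C3 * C1 := by positivity
    linarith
  intro ι _ _ P _ a hG hCwP hN0 hP m hm a' ha1 ha2
  subst hG
  have g1 : n1 ≤ P.N0 := ((le_max_left _ _).trans (le_max_left _ _)).trans hN0
  have g2 : n2 ≤ P.N0 := ((le_max_right _ _).trans (le_max_left _ _)).trans hN0
  have g3 : n3 ≤ P.N0 := ((le_max_left _ _).trans (le_max_right _ _)).trans hN0
  have g4 : 2 ≤ P.N0 := ((le_max_right _ _).trans (le_max_right _ _)).trans hN0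
  have hS : WO.Good P.sys P.A := P.good hgood g2
  have hgeo := P.lhGeo (m := m) hm
  have ha0 : 0 < a' := (P.et_pos (m + 1)).trans ha1
  have hahalf : a' ≤ 1 / 2 := (ha2.le.trans (hP.et_le_ev m)).trans (ev_half (by omega))
  have hB := clsB_inst P (Cwr := Cwr) hC1 g4 (by rw [hCwP, hCwd]; linarith) hP
    (fun N hN a ha haN => hlg N (g1.trans hN) a ha haN) hm ha1
  rw [hCwP] at hB
  have key := num_of (C := C) hd hC (by linarith : 1 ≤ C1) hal hC3' le_rfl g4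
    (hn3.trans (by exact_mod_cast g3)) hS hgeo ha0 hahalf hB
  set N : ℝ := ((P.N0 + (m + 1) : ℕ) : ℝ) with hN
  have hNe : (P.N0 : ℝ) + m + 1 = N := by rw [hN]; push_cast; ring
  have hN1 : (1 : ℝ) ≤ N := by
    have : 1 ≤ P.N0 + (m + 1) := by omega
    rw [hN]; exact_mod_cast this
  have hN2 : (2 : ℝ) ≤ N := by
    have : 2 ≤ P.N0 + (m + 1) := by omega
    rw [hN]; exact_mod_cast this
  have hN5 : (1 : ℝ) ≤ N ^ (2 * d + 1) := one_le_pow₀ hN1
  rw [hNe]
  refine ⟨_, _, _, _, _, _, _, _, key, ?_, ?_, ?_, ?_, ?_⟩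
  · apply Real.exp_le_exp.mpr
    refine mul_le_mul_of_nonneg_right ?_ (by positivity)
    rw [hCz]
    have : 0 ≤ 3 * C3 * C1 := by positivity
    linarith
  · have hκ : P.sys.κ⁻¹ = 4 * c := by
      have : P.sys.κ = 1 / (4 * c) := rfl
      rw [this, one_div, inv_inv]
    rw [hκ]
    have h1 : 4 * c ≤ Real.exp (|Real.log (4 * c)| * N ^ (2 * d + 1)) := by
      have h4cp : 0 < 4 * c := by positivity
      calc 4 * c = Real.exp (Real.log (4 * c)) := (Real.exp_log h4cp).symm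
        _ ≤ _ := by
          apply Real.exp_le_exp.mpr
          have := le_abs_self (Real.log (4 * c))
          nlinarith
    calc 4 * c * Real.exp ((3 * C3 * C1 + 2 * C1) * N ^ (2 * d + 1))
        ≤ Real.exp (|Real.log (4 * c)| * N ^ (2 * d + 1)) *
          Real.exp ((3 * C3 * C1 + 2 * C1) * N ^ (2 * d + 1)) := by
          gcongr
      _ = Real.exp ((3 * C3 * C1 + 2 * C1 + |Real.log (4 * c)|) * N ^ (2 * d + 1)) := by
          rw [← Real.exp_add]; ring_nf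
      _ ≤ _ := by
          apply Real.exp_le_exp.mpr
          refine mul_le_mul_of_nonneg_right ?_ (by positivity)
          rw [hCz]; linarith
  · refine mul_le_mul_of_nonneg_right ?_ (by positivity)
    rw [hCz]
    have : 0 ≤ 3 * C3 * C1 := by positivity
    linarith
  · refine mul_le_mul_of_nonneg_right ?_ (by positivity)
    rw [hCz]
    have : 0 ≤ 3 * C3 * C1 := by positivity
    linarith
  · have e1 : 2 * (C1 * N ^ d) * (1 / 2) + 2 * (1 / 2) ≤ (C1 + 1) * N ^ d := by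
      have : (1 : ℝ) ≤ N ^ d := one_le_pow₀ hN1
      nlinarith
    have e2 : N ^ d ≤ Real.exp (d * N) := by
      have h1 : N ≤ Real.exp N := by linarith [Real.add_one_le_exp N]
      calc N ^ d ≤ Real.exp N ^ d := by gcongr
        _ = Real.exp (d * N) := by rw [← Real.exp_nat_mul]
    have e3 : (d + 1 : ℝ) * N ≤ N ^ (2 * d + 1) := by
      have h4 : (d + 1 : ℝ) ≤ N ^ (2 * d) := by
        have h5 : ((d + 1 : ℕ) : ℝ) ≤ ((2 ^ d : ℕ) : ℝ) := by
          exact_mod_cast Nat.lt_two_pow_self (n := d)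
        calc (d + 1 : ℝ) = ((d + 1 : ℕ) : ℝ) := by push_cast; ring
          _ ≤ ((2 ^ d : ℕ) : ℝ) := h5
          _ = 2 ^ d := by push_cast; ring
          _ ≤ N ^ d := by gcongr
          _ ≤ N ^ (2 * d) := pow_le_pow_right₀ hN1 (by omega)
      calc (d + 1 : ℝ) * N ≤ N ^ (2 * d) * N := by gcongr
        _ = N ^ (2 * d + 1) := by ring
    calc Real.exp (-(N ^ (2 * d + 1))) * (2 * (C1 * N ^ d) * (1 / 2) + 2 * (1 / 2))
        ≤ Real.exp (-(N ^ (2 * d + 1))) * ((C1 + 1) * Real.exp (d * N)) := by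
          refine mul_le_mul_of_nonneg_left (e1.trans ?_) (Real.exp_pos _).le
          gcongr
      _ = (C1 + 1) * Real.exp (-(N ^ (2 * d + 1)) + d * N) := by rw [Real.exp_add]; ring
      _ ≤ (C1 + 1) * Real.exp (-N) := by
          gcongr
          linarith
      _ ≤ Cz * Real.exp (-N) := by
          refine mul_le_mul_of_nonneg_right ?_ (Real.exp_pos _).le
          rw [hCz]
          have : 0 ≤ 3 * C3 * C1 := by positivity
          linarith

/-- NUM for the instance, without the hypothesis `0 < c` (it follows from `P`) -/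
theorem num_inst (G : Gd d c) (C : ℝ) (hC : 1 ≤ C) : ∃ Cw : ℝ, 1 ≤ Cw ∧ G.C ≤ Cw ∧
    ∃ (N1 : ℕ) (Cz : ℝ), 1 ≤ N1 ∧ 1 ≤ Cz ∧
    ∀ (ι : Type) [Fintype ι] [DecidableEq ι] (P : Par d c ι) [Nonempty P.Blk] (a : ℝ), P.G = G →
      P.Cw = Cw → N1 ≤ P.N0 → Std P a → ∀ m < P.M, ∀ a', P.et (m + 1) < a' → a' < P.et m →
        ∃ (Z0 W0 D0 K2 Nn qb qc : ℝ) (q : P.Blk → ℝ),
          LH.Num P.sys P.A m a' P.xi (P.gds m) (P.bs m) (G.r / 2) C Z0 W0 D0 K2 Nn qb qc q ∧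
          Z0 ≤ Real.exp (Cz * ((P.N0 : ℝ) + m + 1) ^ (2 * d + 1)) ∧
          W0 ≤ Real.exp (Cz * ((P.N0 : ℝ) + m + 1) ^ (2 * d + 1)) ∧
          D0 ≤ Cz * ((P.N0 : ℝ) + m + 1) ^ 2 ∧
          Nn ≤ Cz * ((P.N0 : ℝ) + m + 1) ^ d ∧
          K2 * (2 * Nn * qb + 2 * qc) ≤ Cz * Real.exp (-((P.N0 : ℝ) + m + 1)) := by
  by_cases hc : 0 < c
  · exact num_inst_pos hc G C hC
  · exact ⟨max 1 G.C, le_max_left _ _, le_max_right _ _, 1, 1, le_refl _, le_refl _,
      fun ι _ _ P _ _ _ _ _ _ _ _ _ _ _ => absurd P.c_pos hc⟩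

end Pool.Agent.Lib.MP_562b47_mp.CD
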